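import Mathlib
import Pool.Agent.H432.RC.Ext
import Pool.Agent.H432.G1.Main
import Pool.Agent.H432.G1.P_PEXT
import Pool.Agent.H432.G1.P_DUPL
import Pool.Agent.H432.G1.P_ELLORD
import Pool.Agent.H432.EX.Gau
import Pool.Agent.H432.G2.Sup

set_option autoImplicit false

/-!
# Vojta's inequality on the curves of genus at most two and of bounded degree

`X ⊂ ℙ^(M - 1)` is any smooth projective variety over the number field `k` of dimension `n ≥ 1` (the
equations `G i` generate its prime ideal) and `D = D_1 + ⋯ + D_q` is any divisor with normal crossings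
on `X`, where `D_i` is the intersection of `X` with the common zeros of forms `F i j` of degree `δ i`.

There is a proper closed subset `Z` of `X`, which depends only on `X`, `D` and a bound `N` for the
degree of the curves, such that Vojta's inequality holds on all curves of genus at most two and of
degree at most `N` which are not contained in `Z ∪ D`, over all number fields `L` which contain `k`,
for every finite set `S` of places of `L` which contains the archimedean ones, and every `ε > 0`:

(1) Rational curves. For all number fields `L ⊂ L'` over `k` the points `x` of `X(L)` outside `D` which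
lie on a rational curve `φ : ℙ^1 → X` over `L` of degree at most `N`, which is not contained in `Z` and
meets `D` only in points which are rational over `L'`, satisfy
`m_{S,D}(x) + h_K(x) ≤ ε h(x) + C (1 + h(φ))`, where `h(φ)` is the height of the coefficients of `φ`.
The curve varies with the point.

(2) Elliptic curves. Let `E : y ^ 2 = x ^ 3 + a x + b` be an elliptic curve over `L` and `φ : E → X` a
morphism over `L` given by polynomials in `x` and `y` of degree at most `N`, such that `φ(E)` is not
contained in `Z` and not contained in `D`. Then `m_{S,D}(φ(P)) + h_K(φ(P)) ≤ ε h(φ(P)) + C` for all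
`P ∈ E(L)` outside of finitely many points and of the points of `D`.

(3) Superelliptic curves of genus at least two, in particular all curves of genus two and all
hyperelliptic curves. Let `B` be the smooth projective curve with the equation `y ^ r = f(x)`, where
`f` is a separable polynomial over `L` of degree `d` and the genus
`((r - 1) (d - 1) + 1 - gcd(r, d)) / 2` of `B` is at least two, and let `φ` be any rational map from
`B` to `X`. Then the inequality of (2) holds on `B`, for the same reason as for all curves of genus at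
least two (Faltings): `B` has only finitely many points over `L`. The proof of this case of Mordell's
conjecture over number fields for all `r` and `f` is in `Pool/Agent/H422/HE` (hyperelliptic curves,
power classes; helper422) and `Pool/Agent/H432/G2/Sup.lean` (all superelliptic curves).

By Riemann's theorem every curve of geometric genus one and degree at most `N` on `X` with a smooth
rational point over `L` is of the form (2), with another bound for the degree of the polynomials, and
every curve of geometric genus two is of the form (3) with `r = 2` and `d = 5` or `6`.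
-/

namespace Pool.Agent.Results.MP_17a322_nt.CurvesOfGenusAtMostTwo

open NumberField IsDedekindDomain MvPolynomial

/-- The tangent space at `z` of the affine cone over the variety with the equations `G i`: the vectors
`v` with `∑ j, (∂_j G i)(z) v_j = 0` for all `i`. -/
noncomputable def tangentSpace {k Ω : Type} [Field k] [Field Ω] [Algebra k Ω] {M g : ℕ}
    (G : Fin g → MvPolynomial (Fin M) k) (z : Fin M → Ω) : Submodule Ω (Fin M → Ω) :=
  ⨅ i, LinearMap.ker (∑ j, aeval z (pderiv j (G i)) • LinearMap.proj (R := Ω) (φ := fun _ => Ω) j)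

/-- The variety with the equations `G i` is smooth of dimension `n`: at all points over all extension
fields the tangent space of the cone has dimension `n + 1`. -/
def IsSmooth {k : Type} [Field k] {M g : ℕ} (n : ℕ) (G : Fin g → MvPolynomial (Fin M) k) : Prop :=
  ∀ (Ω : Type) [Field Ω] [Algebra k Ω] (z : Fin M → Ω), z ≠ 0 → (∀ i, aeval z (G i) = 0) →
    Module.finrank Ω (tangentSpace G z) = n + 1

/-- The subschemes `D_i` of the (smooth) variety, where `D_i` has the equations `F i j`, have normal
crossings: at each point `z` of the variety over each extension field one can choose for every `i` one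
of the equations `F i j` such that the differentials of the chosen equations of those `D_i` which
contain `z` are linearly independent on the tangent space. -/
def IsNormalCrossings {k : Type} [Field k] {M g q w : ℕ}
    (G : Fin g → MvPolynomial (Fin M) k) (F : Fin q → Fin w → MvPolynomial (Fin M) k) : Prop :=
  ∀ (Ω : Type) [Field Ω] [Algebra k Ω] (z : Fin M → Ω), z ≠ 0 → (∀ i, aeval z (G i) = 0) →
    ∃ J : Fin q → Fin w, ∀ c : Fin q → Ω,
      (∀ i, c i ≠ 0 → ∀ j, aeval z (F i j) = 0) →
      (∀ v ∈ tangentSpace G z, ∑ i, c i * ∑ l, aeval z (pderiv l (F i (J i))) * v l = 0) → c = 0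

/-- The absolute logarithmic height of a vector over `L`. -/
noncomputable def height {L : Type} [Field L] [NumberField L] {ι : Type} [Finite ι]
    (x : ι → L) : ℝ := Height.logHeight x / Module.finrank ℚ L

/-- The point with the parameter `z = (z_0 : z_1)` on the curve with the coefficients `c`: its
coordinates are the binary forms `∑ m, c l m z_0 ^ m z_1 ^ (d - m)` of degree `d`. -/
def curvePoint {R : Type} [CommRing R] {M d : ℕ} (c : Fin M → Fin (d + 1) → R) (z : Fin 2 → R) :
    Fin M → R := fun l => ∑ m : Fin (d + 1), c l m * (z 0 ^ (m : ℕ) * z 1 ^ (d - m))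

/-- The binary forms with the coefficients `c` have no common zero and define a morphism from the
projective line to the variety with the equations `G i`. -/
def IsRationalCurve {k L : Type} [Field k] [Field L] [Algebra k L] {M g d : ℕ}
    (G : Fin g → MvPolynomial (Fin M) k) (c : Fin M → Fin (d + 1) → L) : Prop :=
  ∀ (Ω : Type) [Field Ω] [Algebra k Ω] [Algebra L Ω] [IsScalarTower k L Ω] (z : Fin 2 → Ω), z ≠ 0 →
    curvePoint (fun l m => algebraMap L Ω (c l m)) z ≠ 0 ∧
    ∀ i, aeval (curvePoint (fun l m => algebraMap L Ω (c l m)) z) (G i) = 0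

/-- All the parameters (over all extension fields) of the points in which the curve with the
coefficients `c` meets the subschemes `D_i` are rational over the extension `L'` of `L`. -/
def MeetsRationally {k L : Type} [Field k] [Field L] [Algebra k L] (L' : Type) [Field L']
    [Algebra k L'] [Algebra L L'] {M q w d : ℕ} (F : Fin q → Fin w → MvPolynomial (Fin M) k)
    (c : Fin M → Fin (d + 1) → L) : Prop :=
  ∀ (Ω : Type) [Field Ω] [Algebra k Ω] [Algebra L' Ω] [IsScalarTower k L' Ω] (z : Fin 2 → Ω),
    z ≠ 0 → ∀ i, (∀ j, aeval (curvePoint (fun l m => algebraMap L' Ω (algebraMap L L' (c l m))) z)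
      (F i j) = 0) → ∃ (y : Fin 2 → L') (a : Ω), z = fun b => a * algebraMap L' Ω (y b)

/-- The polynomial `Y ^ 2 - (X ^ 3 + a X + b)`, the equation of the affine part of the curve
`E : y ^ 2 = x ^ 3 + a x + b`. -/
noncomputable def weierstrass {L : Type} [Field L] (a b : L) : MvPolynomial (Fin 2) L :=
  X 1 ^ 2 - (X 0 ^ 3 + C a * X 0 + C b)

/-- `E : y ^ 2 = x ^ 3 + a x + b` is an elliptic curve and the polynomials `φ l` of degree at most `N`
in `x`, `y` define a rational map from it to the variety with the equations `G i`: the `G i (φ)` vanish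
on the curve. -/
def IsEllipticCurve {k L : Type} [Field k] [Field L] [Algebra k L] {M g : ℕ}
    (G : Fin g → MvPolynomial (Fin M) k) (N : ℕ) (a b : L) (φ : Fin M → MvPolynomial (Fin 2) L) :
    Prop :=
  4 * a ^ 3 + 27 * b ^ 2 ≠ 0 ∧ (∀ l, (φ l).totalDegree ≤ N) ∧ ∀ i, weierstrass a b ∣ aeval φ (G i)

/-- The polynomial `Y ^ r - f(X)`, the equation of the affine part of the curve `y ^ r = f(x)`. -/
noncomputable def superelliptic {L : Type} [Field L] (r : ℕ) (f : Polynomial L) :
    MvPolynomial (Fin 2) L :=
  X 1 ^ r - Polynomial.aeval (X 0) f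

/-- `f` is separable, the genus `((r - 1) (d - 1) + 1 - gcd(r, d)) / 2`, `d = deg f`, of the curve
`y ^ r = f(x)` is at least two, and the polynomials `φ l` in `x`, `y` define a rational map from it to
the variety with the equations `G i`: the `G i (φ)` vanish on the curve. -/
def IsSuperellipticCurve {k L : Type} [Field k] [Field L] [Algebra k L] {M g : ℕ}
    (G : Fin g → MvPolynomial (Fin M) k) (r : ℕ) (f : Polynomial L)
    (φ : Fin M → MvPolynomial (Fin 2) L) : Prop :=
  f.Separable ∧ 2 ≤ ((r - 1) * (f.natDegree - 1) + 1 - Nat.gcd r f.natDegree) / 2 ∧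
    ∀ i, superelliptic r f ∣ aeval φ (G i)

/-- The point `φ(z)` for a point `z = (x, y)` of the curve. -/
noncomputable def mapPoint {L : Type} [Field L] {M : ℕ} (φ : Fin M → MvPolynomial (Fin 2) L)
    (z : Fin 2 → L) : Fin M → L := fun l => eval z (φ l)

/-- The columns of `A` are a basis of the tangent space of the cone at `x` (for a smooth variety of
dimension `n`). -/
def IsTangentBasis {k L : Type} [Field k] [Field L] [Algebra k L] {M g n : ℕ}
    (G : Fin g → MvPolynomial (Fin M) k) (x : Fin M → L) (A : Matrix (Fin M) (Fin (n + 1)) L) :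
    Prop :=
  LinearIndependent L A.col ∧ ∀ c, A.col c ∈ tangentSpace G x

/-- The height `h_K(x)` for the canonical class `K` of the variety: the Gauss map `γ` sends a point to
its embedded tangent space, `γ^* O(1) = K + (n + 1) H` for the hyperplane class `H`; `h_K(x)` is the
height of the vector of the maximal minors of a basis `A` of the tangent space minus
`(n + 1) h(x)`. -/
noncomputable def canonicalHeight {L : Type} [Field L] [NumberField L] {M n : ℕ} (x : Fin M → L)
    (A : Matrix (Fin M) (Fin (n + 1)) L) : ℝ :=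
  height (fun J : Fin (n + 1) → Fin M => (A.submatrix J id).det) - (n + 1) * height x

/-- The local height `∑ i, log ((max_l |x_l|) ^ δ i / max_j |F i j (x)|)` of `D_1 + ⋯ + D_q` for an
absolute value of `L`. -/
noncomputable def weil {k L : Type} [Field k] [Field L] [Algebra k L] {M q w : ℕ}
    (f : AbsoluteValue L ℝ) (F : Fin q → Fin w → MvPolynomial (Fin M) k) (δ : Fin q → ℕ)
    (x : Fin M → L) : ℝ :=
  ∑ i, Real.log ((⨆ l, f (x l)) ^ δ i / ⨆ j, f (aeval x (F i j)))

/-- The proximity function `m_{S,D}(x)`, where `S` consists of the archimedean places of `L` and the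
primes in `S`: the sum of the local heights over the infinite places `v` (with the factor `[L_v : ℝ]`)
and over the primes in `S` (with the absolute value `N(v) ^ (- ord_v)`), divided by `[L : ℚ]`. -/
noncomputable def proximity {k L : Type} [Field k] [Field L] [NumberField L] [Algebra k L]
    {M q w : ℕ} (S : Finset (HeightOneSpectrum (𝓞 L)))
    (F : Fin q → Fin w → MvPolynomial (Fin M) k) (δ : Fin q → ℕ) (x : Fin M → L) : ℝ :=
  (∑ v : InfinitePlace L, (v.mult : ℝ) * weil v.1 F δ x +
    ∑ v ∈ S, weil (FinitePlace.mk v).1 F δ x) / Module.finrank ℚ L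

theorem mem_tangentSpace {k Ω : Type} [Field k] [Field Ω] [Algebra k Ω] {M g : ℕ}
    {G : Fin g → MvPolynomial (Fin M) k} {z v : Fin M → Ω} :
    v ∈ tangentSpace G z ↔ ∀ i, ∑ j, aeval z (pderiv j (G i)) * v j = 0 := by
  unfold tangentSpace
  rw [Submodule.mem_iInf]
  refine forall_congr' fun i => ?_
  rw [LinearMap.mem_ker, LinearMap.sum_apply]
  rfl

theorem tangentSpace_eq {k Ω : Type} [Field k] [Field Ω] [Algebra k Ω] {M g : ℕ}
    (G : Fin g → MvPolynomial (Fin M) k) (z : Fin M → Ω) :
    tangentSpace G z = Pool.Agent.N750.TS G z := by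
  ext v
  rw [mem_tangentSpace, Pool.Agent.N750.mem_TS]

/-- the inequality on the rational curves -/
theorem rational (k : Type) [Field k] [NumberField k] (n M g q w : ℕ) (hn : 1 ≤ n)
    (G : Fin g → MvPolynomial (Fin M) k) (e : Fin g → ℕ)
    (hG : ∀ i, (G i).IsHomogeneous (e i)) (hI : (Ideal.span (Set.range G)).IsPrime)
    (hX : IsSmooth n G) (F : Fin q → Fin w → MvPolynomial (Fin M) k) (δ : Fin q → ℕ)
    (hF : ∀ i j, (F i j).IsHomogeneous (δ i)) (hD : IsNormalCrossings G F) (N : ℕ) :
    ∃ (m : ℕ) (Φ : MvPolynomial (Fin M) k), Φ ∉ Ideal.span (Set.range G) ∧ Φ.IsHomogeneous m ∧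
      ∀ (L L' : Type) [Field L] [NumberField L] [Algebra k L] [Field L'] [NumberField L']
        [Algebra k L'] [Algebra L L'] [IsScalarTower k L L']
        (S : Finset (HeightOneSpectrum (𝓞 L))) (ε : ℝ), 0 < ε →
      ∃ C : ℝ, ∀ d ≤ N, ∀ (c : Fin M → Fin (d + 1) → L) (s : Fin 2 → L), s ≠ 0 →
        IsRationalCurve G c → MeetsRationally L' F c →
        (∃ z : Fin 2 → L, aeval (curvePoint c z) Φ ≠ 0) →
        (∀ i, ∃ j, aeval (curvePoint c s) (F i j) ≠ 0) →
        ∀ A : Matrix (Fin M) (Fin (n + 1)) L, IsTangentBasis G (curvePoint c s) A →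
        proximity S F δ (curvePoint c s) + canonicalHeight (curvePoint c s) A ≤
          ε * height (curvePoint c s) + C * (1 + height fun a : Fin M × Fin (d + 1) => c a.1 a.2) := by
  classical
  obtain ⟨n', rfl⟩ : ∃ n', n = n' + 1 := ⟨n - 1, by omega⟩
  have hsm : Pool.Agent.N750.Sm (n' + 1) G := by
    intro Ω _ _ z hz hzG
    rw [← tangentSpace_eq]
    exact hX Ω z hz hzG
  have hnc : Pool.Agent.H432.RC.NCD G F := by
    intro Ω _ _ z hz hzG
    obtain ⟨J, hJ⟩ := hD Ω z hz hzG
    refine ⟨J, fun c hc hv => hJ c hc fun v hvm => hv v ?_⟩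
    rw [← tangentSpace_eq]
    exact hvm
  obtain ⟨m, Φ, hΦm, hΦI, hmain⟩ := Pool.Agent.H432.RC.main_ext G e hG hI hsm F δ hF hnc N
  refine ⟨m, Φ, hΦI, hΦm, ?_⟩
  intro L L' _ _ _ _ _ _ _ _ S ε hε
  have hd : (0 : ℝ) < Module.finrank ℚ L := by exact_mod_cast Module.finrank_pos
  have hd1 : (1 : ℝ) ≤ Module.finrank ℚ L := by
    have : 0 < Module.finrank ℚ L := Module.finrank_pos
    exact_mod_cast this
  obtain ⟨C, hC0, hC⟩ := hmain L L' ((Finset.univ : Finset (InfinitePlace L)).disjSum S) ε hε
  refine ⟨C, ?_⟩
  intro d hdN c s hs hc hmr hz hxF A hA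
  have hx0 : curvePoint c s ≠ 0 := (hc L s hs).1
  have hcurve : Pool.Agent.H432.RC.CurveOK G F (fun l m => algebraMap L L' (c l m)) := by
    refine ⟨?_, ?_, ?_⟩
    · intro Ω _ _ z hz
      let _ : Algebra L Ω := ((algebraMap L' Ω).comp (algebraMap L L')).toAlgebra
      let _ : Algebra k Ω := ((algebraMap L' Ω).comp (algebraMap k L')).toAlgebra
      have _ : IsScalarTower k L Ω := IsScalarTower.of_algebraMap_eq fun a => by
        show algebraMap L' Ω (algebraMap k L' a) = algebraMap L' Ω (algebraMap L L' (algebraMap k L a))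
        rw [← IsScalarTower.algebraMap_apply k L L']
      exact (hc Ω z hz).1
    · intro z i
      by_cases hz : z = 0
      · rw [hz]
        have hG0 : aeval (Pool.Agent.H432.RC.pc (fun l m => algebraMap L L' (c l m))
            (0 : Fin 2 → L')) (G i) = 0 := by
          by_cases hd0 : d = 0
          · subst hd0
            have h1 := (hc L' ![1, 1] (by
              intro h
              have := congrFun h 0
              simp at this)).2 i
            have h2 : Pool.Agent.H432.RC.pc (fun l m => algebraMap L L' (c l m))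
                (0 : Fin 2 → L') = curvePoint (fun l m => algebraMap L L' (c l m)) ![1, 1] := by
              funext l
              unfold Pool.Agent.H432.RC.pc curvePoint
              simp
            rw [h2]
            exact h1
          · have h2 : Pool.Agent.H432.RC.pc (fun l m => algebraMap L L' (c l m))
                (0 : Fin 2 → L') = fun l => 0 * curvePoint (fun l m => algebraMap L L' (c l m))
                  ![1, 1] l := by
              funext l
              unfold Pool.Agent.H432.RC.pc
              rw [zero_mul]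
              refine Finset.sum_eq_zero fun m _ => ?_
              have h3 : (0 : L') ^ (m : ℕ) * (0 : L') ^ (d - (m : ℕ)) = 0 := by
                rw [← pow_add]
                have : (m : ℕ) + (d - m) = d := by
                  have := m.2
                  omega
                rw [this, zero_pow hd0]
              show _ * ((0 : L') ^ (m : ℕ) * (0 : L') ^ (d - (m : ℕ))) = 0
              rw [h3, mul_zero]
            have h1 := (hc L' ![1, 1] (by
              intro h
              have := congrFun h 0
              simp at this)).2 i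
            rw [h2, Pool.Agent.H432.RC.aeval_hom (hG i), h1, mul_zero]
        exact hG0
      · exact (hc L' z hz).2 i
    · intro Ω _ _ _ _ z hz i hij
      exact hmr Ω z hz i hij
  have hht : ∀ {ι : Type} [Finite ι] (y : ι → L),
      Height.logHeight y = Module.finrank ℚ L * height y := by
    intro ι _ y
    unfold height
    field_simp
  have hTB : Pool.Agent.N750.IsTB G (curvePoint c s) (fun l c => A l c) := by
    refine ⟨hA.1, fun c => ?_⟩
    rw [← tangentSpace_eq]
    exact hA.2 c
  have h1 := hC d hdN c s hs hcurve hz hxF (fun l c => A l c) hTB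
  have e0 : Pool.Agent.H432.RC.pc c s = curvePoint c s := rfl
  rw [e0] at h1
  have hwnon : ∀ i, ∃ j0 : Fin w, aeval (curvePoint c s) (F i j0) ≠ 0 := hxF
  have hweil : ∀ f : AbsoluteValue L ℝ, ∑ i, ((δ i : ℝ) * Real.log (Pool.Agent.W180.OP.nrm f
      (curvePoint c s)) - Real.log (Pool.Agent.W180.OP.nrm f
        (fun j => aeval (curvePoint c s) (F i j)))) = weil f F δ (curvePoint c s) := by
    intro f
    unfold weil
    refine Finset.sum_congr rfl fun i _ => ?_
    have e1 : (⨆ l, f (curvePoint c s l)) = Pool.Agent.W180.OP.nrm f (curvePoint c s) := rfl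
    have e2 : (⨆ j, f (aeval (curvePoint c s) (F i j))) =
      Pool.Agent.W180.OP.nrm f (fun j => aeval (curvePoint c s) (F i j)) := rfl
    obtain ⟨j0, hj0⟩ := hxF i
    have e3 : (fun j => aeval (curvePoint c s) (F i j)) ≠ 0 := fun h => hj0 (congrFun h j0)
    rw [e1, e2, Real.log_div (pow_ne_zero _ (Pool.Agent.W180.OP.nrm_pos f hx0).ne')
      (Pool.Agent.W180.OP.nrm_pos f e3).ne', Real.log_pow]
  have hprx : Pool.Agent.H432.RC.prx ((Finset.univ : Finset (InfinitePlace L)).disjSum S) F δ
      (curvePoint c s) = Module.finrank ℚ L * proximity S F δ (curvePoint c s) := by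
    unfold Pool.Agent.H432.RC.prx proximity
    rw [Finset.sum_disjSum]
    simp only [hweil]
    have e4 : ∀ v : HeightOneSpectrum (𝓞 L),
        Pool.Agent.W180.OP.wt (Sum.inr v : Pool.Agent.W180.OP.Pl L) = 1 := fun _ => rfl
    simp only [e4, one_mul]
    field_simp
    rfl
  have hcan : Module.finrank ℚ L * canonicalHeight (curvePoint c s) A =
      Height.logHeight (Pool.Agent.N750.mv (fun l c => A l c)) -
        (n' + 2) * Height.logHeight (curvePoint c s) := by
    have e1 : Pool.Agent.N750.mv (fun l c => A l c) =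
        fun J : Fin (n' + 1 + 1) → Fin M => (A.submatrix J id).det := rfl
    unfold canonicalHeight
    rw [e1, hht, hht]
    push_cast
    ring
  have hcv : Height.logHeight (Pool.Agent.H432.RC.cv c) ≤
      Module.finrank ℚ L * height fun a : Fin M × Fin (d + 1) => c a.1 a.2 := by
    rw [← hht]
    exact Height.logHeight_comp_le finProdFinEquiv.symm (fun a : Fin M × Fin (d + 1) => c a.1 a.2)
  have h5 : C * (1 + Height.logHeight (Pool.Agent.H432.RC.cv c)) ≤ Module.finrank ℚ L *
      (C * (1 + height fun a : Fin M × Fin (d + 1) => c a.1 a.2)) := by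
    have h6 := mul_le_mul_of_nonneg_left hcv hC0
    have h7 : C * 1 ≤ C * Module.finrank ℚ L := mul_le_mul_of_nonneg_left hd1 hC0
    nlinarith
  have h8 : Module.finrank ℚ L * (proximity S F δ (curvePoint c s) +
      canonicalHeight (curvePoint c s) A) ≤ Module.finrank ℚ L * (ε * height (curvePoint c s) +
        C * (1 + height fun a : Fin M × Fin (d + 1) => c a.1 a.2)) := by
    rw [mul_add, hcan, ← hprx, mul_add]
    have e1 : Module.finrank ℚ L * (ε * height (curvePoint c s)) =
        ε * Height.logHeight (curvePoint c s) := by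
      rw [hht (curvePoint c s)]
      ring
    rw [e1]
    linarith
  exact le_of_mul_le_mul_left h8 hd

/-- the inequality on the elliptic curves -/
theorem elliptic (k : Type) [Field k] [NumberField k] (n M g q w : ℕ) (hn : 1 ≤ n)
    (G : Fin g → MvPolynomial (Fin M) k) (e : Fin g → ℕ)
    (hG : ∀ i, (G i).IsHomogeneous (e i)) (hI : (Ideal.span (Set.range G)).IsPrime)
    (hX : IsSmooth n G) (F : Fin q → Fin w → MvPolynomial (Fin M) k) (δ : Fin q → ℕ)
    (hF : ∀ i j, (F i j).IsHomogeneous (δ i)) (N : ℕ) :
    ∃ (m : ℕ) (Φ : MvPolynomial (Fin M) k), Φ ∉ Ideal.span (Set.range G) ∧ Φ.IsHomogeneous m ∧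
      ∀ (L : Type) [Field L] [NumberField L] [Algebra k L] (a b : L)
        (φ : Fin M → MvPolynomial (Fin 2) L), IsEllipticCurve G N a b φ →
        ¬ weierstrass a b ∣ aeval φ Φ → (∀ i, ∃ j, ¬ weierstrass a b ∣ aeval φ (F i j)) →
        ∀ (S : Finset (HeightOneSpectrum (𝓞 L))) (ε : ℝ), 0 < ε →
        ∃ C : ℝ, ∀ z : Fin 2 → L, z 1 ^ 2 = z 0 ^ 3 + a * z 0 + b → mapPoint φ z ≠ 0 →
        (∀ i, ∃ j, aeval (mapPoint φ z) (F i j) ≠ 0) →
        ∀ A : Matrix (Fin M) (Fin (n + 1)) L, IsTangentBasis G (mapPoint φ z) A →
        proximity S F δ (mapPoint φ z) + canonicalHeight (mapPoint φ z) A ≤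
          ε * height (mapPoint φ z) + C := by
  classical
  obtain ⟨n', rfl⟩ : ∃ n', n = n' + 1 := ⟨n - 1, by omega⟩
  have hsm : Pool.Agent.N750.Sm (n' + 1) G := by
    intro Ω _ _ z hz hzG
    rw [← tangentSpace_eq]
    exact hX Ω z hz hzG
  obtain ⟨m, Φ, hΦm, hΦI, hmain⟩ := Pool.Agent.H432.G1.main_g1 Pool.Agent.H432.G1.pext
    Pool.Agent.H432.G1.dupl Pool.Agent.H432.G1.ellord G e hG hI hsm F δ hF N
  refine ⟨m, Φ, hΦI, hΦm, ?_⟩
  intro L _ _ _ a b φ hφ hΦ hFne S ε hε
  have hd : (0 : ℝ) < Module.finrank ℚ L := by exact_mod_cast Module.finrank_pos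
  obtain ⟨C0, hC0⟩ := hmain L a b hφ.1 φ hφ.2.1 hφ.2.2 hΦ hFne
    ((Finset.univ : Finset (InfinitePlace L)).disjSum S) ε hε
  refine ⟨C0 / Module.finrank ℚ L, ?_⟩
  intro z hz hx0 hxF A hA
  have hz' : eval z (Pool.Agent.H432.G1.wei a b) = 0 := by
    unfold Pool.Agent.H432.G1.wei
    simp only [map_sub, map_add, map_mul, map_pow, eval_X, eval_C]
    rw [hz, sub_self]
  have hTB : Pool.Agent.N750.IsTB G (mapPoint φ z) (fun l c => A l c) := by
    refine ⟨hA.1, fun c => ?_⟩
    rw [← tangentSpace_eq]
    exact hA.2 c
  have h1 := hC0 z hz' hx0 hxF (fun l c => A l c) hTB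
  have e0 : Pool.Agent.H432.AC.pt φ z = mapPoint φ z := rfl
  rw [e0] at h1
  have hweil : ∀ f : AbsoluteValue L ℝ, ∑ i, ((δ i : ℝ) * Real.log (Pool.Agent.W180.OP.nrm f
      (mapPoint φ z)) - Real.log (Pool.Agent.W180.OP.nrm f
        (fun j => aeval (mapPoint φ z) (F i j)))) = weil f F δ (mapPoint φ z) := by
    intro f
    unfold weil
    refine Finset.sum_congr rfl fun i _ => ?_
    have e1 : (⨆ l, f (mapPoint φ z l)) =
      Pool.Agent.W180.OP.nrm f (mapPoint φ z) := rfl
    have e2 : (⨆ j, f (aeval (mapPoint φ z) (F i j))) =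
      Pool.Agent.W180.OP.nrm f (fun j => aeval (mapPoint φ z) (F i j)) := rfl
    obtain ⟨j0, hj0⟩ := hxF i
    have e3 : (fun j => aeval (mapPoint φ z) (F i j)) ≠ 0 := fun h => hj0 (congrFun h j0)
    rw [e1, e2, Real.log_div (pow_ne_zero _ (Pool.Agent.W180.OP.nrm_pos f hx0).ne')
      (Pool.Agent.W180.OP.nrm_pos f e3).ne', Real.log_pow]
  have hprx : Pool.Agent.H432.RC.prx ((Finset.univ : Finset (InfinitePlace L)).disjSum S) F δ
      (mapPoint φ z) = Module.finrank ℚ L * proximity S F δ (mapPoint φ z) := by
    unfold Pool.Agent.H432.RC.prx proximity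
    rw [Finset.sum_disjSum]
    simp only [hweil]
    have e4 : ∀ v : HeightOneSpectrum (𝓞 L),
        Pool.Agent.W180.OP.wt (Sum.inr v : Pool.Agent.W180.OP.Pl L) = 1 := fun _ => rfl
    simp only [e4, one_mul]
    field_simp
    rfl
  rw [hprx] at h1
  have e1 : Pool.Agent.N750.mv (fun l c => A l c) =
      fun J : Fin (n' + 1 + 1) → Fin M => (A.submatrix J id).det := rfl
  rw [e1] at h1
  have h2 := div_le_div_of_nonneg_right h1 hd.le
  unfold canonicalHeight height
  push_cast
  refine le_trans (le_of_eq ?_) (h2.trans (le_of_eq ?_))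
  · field_simp
    ring
  · field_simp

/-- the inequality on the superelliptic curves of genus at least two -/
theorem superellipticPart (k : Type) [Field k] [NumberField k] (n M g q w : ℕ) (hn : 1 ≤ n)
    (G : Fin g → MvPolynomial (Fin M) k) (hX : IsSmooth n G)
    (F : Fin q → Fin w → MvPolynomial (Fin M) k) (δ : Fin q → ℕ)
    (L : Type) [Field L] [NumberField L] [Algebra k L] (r : ℕ) (f : Polynomial L)
    (φ : Fin M → MvPolynomial (Fin 2) L) (hφ : IsSuperellipticCurve G r f φ)
    (S : Finset (HeightOneSpectrum (𝓞 L))) (ε : ℝ) :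
    ∃ C : ℝ, ∀ z : Fin 2 → L, z 1 ^ r = f.eval (z 0) → mapPoint φ z ≠ 0 →
      (∀ i, ∃ j, aeval (mapPoint φ z) (F i j) ≠ 0) →
      ∀ A : Matrix (Fin M) (Fin (n + 1)) L, IsTangentBasis G (mapPoint φ z) A →
        proximity S F δ (mapPoint φ z) + canonicalHeight (mapPoint φ z) A ≤
          ε * height (mapPoint φ z) + C := by
  classical
  obtain ⟨n', rfl⟩ : ∃ n', n = n' + 1 := ⟨n - 1, by omega⟩
  have hgen : 3 + Nat.gcd r f.natDegree ≤ (r - 1) * (f.natDegree - 1) := by
    have := hφ.2.1
    omega
  have hfin := Pool.Agent.H432.G2.superelliptic L hφ.1 hgen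
  have hb : ∀ z : Fin 2 → L, ∃ B : ℝ, z 1 ^ r = f.eval (z 0) → mapPoint φ z ≠ 0 →
      ∀ A : Matrix (Fin M) (Fin (n' + 1 + 1)) L, IsTangentBasis G (mapPoint φ z) A →
        canonicalHeight (mapPoint φ z) A ≤ B := by
    intro z
    by_cases h : ∃ A0 : Matrix (Fin M) (Fin (n' + 1 + 1)) L, IsTangentBasis G (mapPoint φ z) A0
    · obtain ⟨A0, hA0⟩ := h
      refine ⟨canonicalHeight (mapPoint φ z) A0, fun hz hx0 A hA => ?_⟩
      have hxG : ∀ i, aeval (mapPoint φ z) (G i) = 0 := by
        intro i
        have h1 : aeval (mapPoint φ z) (G i) = ((aeval z : MvPolynomial (Fin 2) L →ₐ[L] L).restrictScalars k)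
            (aeval φ (G i)) := by
          rw [comp_aeval_apply]
          rfl
        obtain ⟨u, hu⟩ := hφ.2.2 i
        have h2 : aeval z (superelliptic r f) = (0 : L) := by
          unfold superelliptic
          rw [map_sub, map_pow, aeval_X, ← Polynomial.aeval_algHom_apply, aeval_X, hz,
            Polynomial.coe_aeval_eq_eval, sub_self]
        rw [h1, hu, AlgHom.restrictScalars_apply, map_mul, h2, zero_mul]
      have hdim : Module.finrank L (Pool.Agent.N750.TS G (mapPoint φ z)) = n' + 2 := by
        rw [← tangentSpace_eq]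
        exact hX L (mapPoint φ z) hx0 hxG
      have hT0 : Pool.Agent.N750.IsTB G (mapPoint φ z) (fun l c => A0 l c) := by
        refine ⟨hA0.1, fun c => ?_⟩
        rw [← tangentSpace_eq]
        exact hA0.2 c
      have hT : Pool.Agent.N750.IsTB G (mapPoint φ z) (fun l c => A l c) := by
        refine ⟨hA.1, fun c => ?_⟩
        rw [← tangentSpace_eq]
        exact hA.2 c
      obtain ⟨t, ht, hmv⟩ := Pool.Agent.H432.EX.mv_prop hdim hT0 hT
      have e1 : (fun J : Fin (n' + 1 + 1) → Fin M => (A.submatrix J id).det) =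
          t • fun J : Fin (n' + 1 + 1) → Fin M => (A0.submatrix J id).det := hmv
      unfold canonicalHeight height
      rw [e1, Height.logHeight_smul_eq_logHeight _ ht]
    · exact ⟨0, fun _ _ A hA => absurd ⟨A, hA⟩ h⟩
  choose B hB using hb
  refine ⟨∑ z ∈ hfin.toFinset, |proximity S F δ (mapPoint φ z) + B z -
    ε * height (mapPoint φ z)|, ?_⟩
  intro z hz hx0 _ A hA
  have h1 := hB z hz hx0 A hA
  have h2 : |proximity S F δ (mapPoint φ z) + B z - ε * height (mapPoint φ z)| ≤
      ∑ z ∈ hfin.toFinset, |proximity S F δ (mapPoint φ z) + B z - ε * height (mapPoint φ z)| :=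
    Finset.single_le_sum (f := fun z => |proximity S F δ (mapPoint φ z) + B z -
      ε * height (mapPoint φ z)|) (fun _ _ => abs_nonneg _) (hfin.mem_toFinset.mpr hz)
  have h3 := le_abs_self (proximity S F δ (mapPoint φ z) + B z - ε * height (mapPoint φ z))
  linarith

/-- **Vojta's inequality on the curves of genus at most two and of bounded degree.** Let
`X ⊂ ℙ^(M - 1)` be a smooth projective variety over the number field `k` of dimension `n ≥ 1`, with the
prime ideal generated by the forms `G i`, and let `D = D_1 + ⋯ + D_q` be a divisor with normal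
crossings on `X`, `D_i` cut out by the forms `F i j` of degree `δ i`. For every `N` there is a form `Φ`
over `k` which does not vanish on `X` with the following properties (the archimedean places are
always added to `S`). (1) For all number fields `L ⊂ L'` over `k`, every finite set `S` of primes of
`L` and every `ε > 0` there is `C` such that for all rational curves `φ` on `X` over `L` of degree
`d ≤ N` on which `Φ` does not vanish identically and which meet `D` only in points rational over `L'`,
all points `x = φ(s)` in `X(L)` outside `D` satisfy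
`m_{S,D}(x) + h_K(x) ≤ ε h(x) + C (1 + h(φ))`. (2) For all number fields `L` over `k`, all elliptic
curves `E : y ^ 2 = x ^ 3 + a x + b` over `L` and all maps `φ : E → X` over `L`, given by polynomials
in `x`, `y` of degree at most `N`, for which `φ(E)` is not contained in the zero set of `Φ` and not
contained in any `D_i`, every finite set `S` of primes of `L` and every `ε > 0` there is `C` such that
`m_{S,D}(φ(z)) + h_K(φ(z)) ≤ ε h(φ(z)) + C` for all points `z = (x, y)` of `E` over `L` with
`φ(z) ≠ 0` (that is, `φ` is defined at `z`) and `φ(z)` not in `D`. (3) The same holds for all number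
fields `L` over `k`, all curves `y ^ r = f(x)` of genus at least two with `f` separable over `L` and
all rational maps `φ` from this curve to `X` over `L`, given by polynomials in `x`, `y` of any
degree. -/
theorem result (k : Type) [Field k] [NumberField k] (n M g q w : ℕ) (hn : 1 ≤ n)
    (G : Fin g → MvPolynomial (Fin M) k) (e : Fin g → ℕ)
    (hG : ∀ i, (G i).IsHomogeneous (e i)) (hI : (Ideal.span (Set.range G)).IsPrime)
    (hX : IsSmooth n G) (F : Fin q → Fin w → MvPolynomial (Fin M) k) (δ : Fin q → ℕ)
    (hF : ∀ i j, (F i j).IsHomogeneous (δ i)) (hD : IsNormalCrossings G F) (N : ℕ) :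
    ∃ (m : ℕ) (Φ : MvPolynomial (Fin M) k), Φ ∉ Ideal.span (Set.range G) ∧ Φ.IsHomogeneous m ∧
      (∀ (L L' : Type) [Field L] [NumberField L] [Algebra k L] [Field L'] [NumberField L']
        [Algebra k L'] [Algebra L L'] [IsScalarTower k L L']
        (S : Finset (HeightOneSpectrum (𝓞 L))) (ε : ℝ), 0 < ε →
      ∃ C : ℝ, ∀ d ≤ N, ∀ (c : Fin M → Fin (d + 1) → L) (s : Fin 2 → L), s ≠ 0 →
        IsRationalCurve G c → MeetsRationally L' F c →
        (∃ z : Fin 2 → L, aeval (curvePoint c z) Φ ≠ 0) →
        (∀ i, ∃ j, aeval (curvePoint c s) (F i j) ≠ 0) →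
        ∀ A : Matrix (Fin M) (Fin (n + 1)) L, IsTangentBasis G (curvePoint c s) A →
        proximity S F δ (curvePoint c s) + canonicalHeight (curvePoint c s) A ≤
          ε * height (curvePoint c s) +
            C * (1 + height fun a : Fin M × Fin (d + 1) => c a.1 a.2)) ∧
      (∀ (L : Type) [Field L] [NumberField L] [Algebra k L] (a b : L)
        (φ : Fin M → MvPolynomial (Fin 2) L), IsEllipticCurve G N a b φ →
        ¬ weierstrass a b ∣ aeval φ Φ → (∀ i, ∃ j, ¬ weierstrass a b ∣ aeval φ (F i j)) →
        ∀ (S : Finset (HeightOneSpectrum (𝓞 L))) (ε : ℝ), 0 < ε →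
        ∃ C : ℝ, ∀ z : Fin 2 → L, z 1 ^ 2 = z 0 ^ 3 + a * z 0 + b → mapPoint φ z ≠ 0 →
        (∀ i, ∃ j, aeval (mapPoint φ z) (F i j) ≠ 0) →
        ∀ A : Matrix (Fin M) (Fin (n + 1)) L, IsTangentBasis G (mapPoint φ z) A →
        proximity S F δ (mapPoint φ z) + canonicalHeight (mapPoint φ z) A ≤
          ε * height (mapPoint φ z) + C) ∧
      (∀ (L : Type) [Field L] [NumberField L] [Algebra k L] (r : ℕ) (f : Polynomial L)
        (φ : Fin M → MvPolynomial (Fin 2) L), IsSuperellipticCurve G r f φ →
        ∀ (S : Finset (HeightOneSpectrum (𝓞 L))) (ε : ℝ), 0 < ε →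
        ∃ C : ℝ, ∀ z : Fin 2 → L, z 1 ^ r = f.eval (z 0) → mapPoint φ z ≠ 0 →
        (∀ i, ∃ j, aeval (mapPoint φ z) (F i j) ≠ 0) →
        ∀ A : Matrix (Fin M) (Fin (n + 1)) L, IsTangentBasis G (mapPoint φ z) A →
        proximity S F δ (mapPoint φ z) + canonicalHeight (mapPoint φ z) A ≤
          ε * height (mapPoint φ z) + C) := by
  obtain ⟨m1, Φ1, h1, h2, h3⟩ := rational k n M g q w hn G e hG hI hX F δ hF hD N
  obtain ⟨m2, Φ2, h4, h5, h6⟩ := elliptic k n M g q w hn G e hG hI hX F δ hF N
  refine ⟨m1 + m2, Φ1 * Φ2, fun h => ?_, h2.mul h5, ?_, ?_, ?_⟩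
  · rcases hI.mem_or_mem h with h | h
    · exact h1 h
    · exact h4 h
  · intro L L' _ _ _ _ _ _ _ _ S ε hε
    obtain ⟨C, hC⟩ := h3 L L' S ε hε
    refine ⟨C, fun d hd c s hs hc hm hz => hC d hd c s hs hc hm ?_⟩
    obtain ⟨z, hz⟩ := hz
    rw [map_mul] at hz
    exact ⟨z, left_ne_zero_of_mul hz⟩
  · intro L _ _ _ a b φ hφ hΦ
    refine h6 L a b φ hφ fun h => hΦ ?_
    rw [map_mul]
    exact h.mul_left _
  · intro L _ _ _ r f φ hφ S ε _
    exact superellipticPart k n M g q w hn G hX F δ L r f φ hφ S ε

end Pool.Agent.Results.MP_17a322_nt.CurvesOfGenusAtMostTwo
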