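import Pool.Agent.H583.AL.D
import Pool.Agent.Results.MP_2ec8a3_nt.LinkedTriples
import Pool.Graph.R_seed8.TH867.SB.LbA
import Pool.Agent.H583.MO.C

/-!
# All moments of the number of integral points off linked arrangements, and Vojta's inequality for them

Let `D` be the sum of the hyperplanes `L i = 0` of `P ^ n` over `ℚ`. For a finite set `T` of primes,
Vojta's conjecture for `(P ^ n, D)` says `m_{T,D}(P) + h_K(P) ≤ ε h(P) + C` off a proper closed subset;
for the `T`-integral points off `D` this is a bound for their heights, if `D` has at least `n + 2`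
components. It says nothing on how the number of these points and the constant `C` depend on `T`.

Here we consider the arrangements which are *linked* of order `k ≥ 3`: there is a set `B` of forms of
the arrangement which spans all linear forms and is connected by pencils of order `k`, that is, one
gets from each element of `B` to each other one through elements of `B` such that at least `k`
hyperplanes of the arrangement contain the intersection of any two successive ones. Examples are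
`(P ^ 1 ∖ {k points}) ^ n`, the moduli spaces `M_{0, n + 3}` with `k = 3` and the arrangements of
type `B` with `k = 4`.

Let `S` be a finite set of primes and for `m ≥ 1` let `Y(m)` be the set of the points off `D` which are
integral for `T_m = S ∪ {p : p ∣ m}`. We show, for all heights and unconditionally:

* for all `j` and `ε > 0`, the `j`-tuples of points which are in `Y(m)` for one `m ≤ X` are finite in
  number, at most `C X ^ (2 / k + ε)`; the exponent is the best possible for all `j`, `k`, `n ≥ 1`, and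
  it depends neither on the dimension nor on `j`;
* all moments of the number of the integral points are finite: for all `j` there is `M` with
  `∑_{m ≤ X} |Y(m)| ^ j = M X + O(X ^ (2 / k + ε))`;
* for all `R ≥ 1` all but at most `D R ^ (2 / k - 1 + ε) X` of the `m ≤ X` have the property that all
  points of `Y(m)` have bad primes with product at most `R`; hence they are in a finite set which does
  not depend on `m` and satisfy `h(x) ≤ C` and `m_{T_m,D}(x) + h_K(x) ≤ C` with one constant `C`.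

Even for the unit equation `u + v = 1`, the case `n = 1`, `k = 3`, the moments of order `j ≥ 2` are new:
one needs the points of `(P ^ 1 ∖ {0, 1, ∞}) ^ j` with few bad primes.

Method: the points are found along a tree of forms of `B`; for each new form one counts abc triples in
which the primes known from the previous forms cost nothing (`H583/WT`, `H583/AL`); for tuples of points
one goes along the tree several times (`H583/MO`).
-/

set_option autoImplicit false

namespace Pool.Agent.Results.MP_17a322_nt.LinkedArrangements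

open Finset

/-- the value of the linear form `L i` at the integral vector `x` -/
def val {n q : ℕ} (L : Fin q → Fin (n + 1) → ℤ) (x : Fin (n + 1) → ℤ) (i : Fin q) : ℤ :=
  ∑ l, L i l * x l

/-- the linear form `L i` as a vector -/
def vec {n q : ℕ} (L : Fin q → Fin (n + 1) → ℤ) (i : Fin q) : Fin (n + 1) → ℚ :=
  fun l => (L i l : ℚ)

/-- the hyperplanes `L i = 0` and `L j = 0` are different, and at least `k` different hyperplanes of
the arrangement contain their intersection -/
def Pencil {n q : ℕ} (k : ℕ) (L : Fin q → Fin (n + 1) → ℤ) (i j : Fin q) : Prop :=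
  LinearIndependent ℚ ![vec L i, vec L j] ∧ ∃ f : Fin k → Fin q,
    (∀ a b, a ≠ b → LinearIndependent ℚ ![vec L (f a), vec L (f b)]) ∧
    ∀ a, vec L (f a) ∈ Submodule.span ℚ {vec L i, vec L j}

/-- there is a set `B` of forms of the arrangement which spans all linear forms such that one gets
from each element of `B` to each other one through elements of `B` any two successive ones of which
satisfy `Pencil k L` -/
def Linked {n q : ℕ} (k : ℕ) (L : Fin q → Fin (n + 1) → ℤ) : Prop :=
  ∃ B : Set (Fin q), Submodule.span ℚ (vec L '' B) = ⊤ ∧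
    ∀ i ∈ B, ∀ j ∈ B, Relation.ReflTransGen (fun a b => a ∈ B ∧ b ∈ B ∧ Pencil k L a b) i j

/-- `x` is a vector of coprime integral coordinates of a rational point of `P ^ n` which is on none
of the hyperplanes -/
def IsPoint {n q : ℕ} (L : Fin q → Fin (n + 1) → ℤ) (x : Fin (n + 1) → ℤ) : Prop :=
  univ.gcd x = 1 ∧ ∀ i, val L x i ≠ 0

/-- the points off the arrangement (each with two vectors `x`, `-x`) which are integral with respect to
it outside of the primes of `S` and the primes which divide `m` -/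
def IntegralPoints {n q : ℕ} (S : Finset ℕ) (L : Fin q → Fin (n + 1) → ℤ) (m : ℕ) :
    Set (Fin (n + 1) → ℤ) :=
  {x | IsPoint L x ∧ ∀ p : ℕ, p.Prime → (p : ℤ) ∣ ∏ i, val L x i → p ∈ S ∨ p ∣ m}

/-- the `j`-tuples of points, of whatever height, which are all in `IntegralPoints S L m` for one
`m ≤ X` -/
def Tuples {n q : ℕ} (S : Finset ℕ) (L : Fin q → Fin (n + 1) → ℤ) (j : ℕ) (X : ℝ) :
    Set (Fin j → Fin (n + 1) → ℤ) :=
  {x | ∃ m : ℕ, 1 ≤ m ∧ (m : ℝ) ≤ X ∧ ∀ i, x i ∈ IntegralPoints S L m}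

/-- the product of the primes which are not in `S` and divide one of the values `L i (x)` -/
def radical {n q : ℕ} (S : Finset ℕ) (L : Fin q → Fin (n + 1) → ℤ) (x : Fin (n + 1) → ℤ) : ℕ :=
  ∏ p ∈ (∏ i, val L x i).natAbs.primeFactors \ S, p

/-- the logarithmic height of a point with coprime coordinates -/
noncomputable def height {n : ℕ} (x : Fin (n + 1) → ℤ) : ℝ :=
  Real.log ((univ.sup fun l => (x l).natAbs : ℕ) : ℝ)

/-- the proximity function `m_{T,D}(x)` for the set `T` of the infinite place, the primes of `S` and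
the primes which divide `m`: the sum of the local heights
`λ_{D,∞}(x) = ∑_i log (max |x_l| / |L_i(x)|)` and `λ_{D,p}(x) = ∑_i v_p(L_i(x)) log p` -/
noncomputable def proximity {n q : ℕ} (S : Finset ℕ) (L : Fin q → Fin (n + 1) → ℤ) (m : ℕ)
    (x : Fin (n + 1) → ℤ) : ℝ :=
  ∑ i, (height x - Real.log |(val L x i : ℝ)|) +
    ∑ p ∈ S.filter Nat.Prime ∪ m.primeFactors, ∑ i, (padicValInt p (val L x i) : ℝ) * Real.log p

/-- all points off the arrangement (each with two vectors `x`, `-x`), of whatever height, such that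
the product of the primes which are not in `S` and divide one of the `L i (x)` is at most `X` -/
def Points {n q : ℕ} (S : Finset ℕ) (L : Fin q → Fin (n + 1) → ℤ) (X : ℝ) :
    Set (Fin (n + 1) → ℤ) :=
  {x | IsPoint L x ∧ ((∏ p ∈ (∏ i, val L x i).natAbs.primeFactors \ S, p : ℕ) : ℝ) ≤ X}

/-- the arrangement contains the hyperplanes `x_i = 0` and `x_i = x_j`; the complement of these is
the moduli space `M_{0, n + 3}` of `n + 3` different points `0, ∞, x_0, …, x_n` of the line -/
def ContainsBraid {n q : ℕ} (L : Fin q → Fin (n + 1) → ℤ) : Prop :=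
  (∀ i : Fin (n + 1), ∃ j, L j = Pi.single i 1) ∧
    ∀ i i' : Fin (n + 1), i ≠ i' → ∃ j, L j = Pi.single i 1 - Pi.single i' 1

/-- the arrangement contains the hyperplanes `x_i = 0`, `x_i = x_j` and `x_i = - x_j` -/
def ContainsTypeB {n q : ℕ} (L : Fin q → Fin (n + 1) → ℤ) : Prop :=
  ContainsBraid L ∧ ∀ i i' : Fin (n + 1), i ≠ i' → ∃ j, L j = Pi.single i 1 + Pi.single i' 1

open Pool.Agent.H583.AR Pool.Agent.H583.AL
open Pool.Agent.Results.MP_2ec8a3_nt

theorem pencil_symm {n q k : ℕ} {L : Fin q → Fin (n + 1) → ℤ} {i j : Fin q}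
    (h : Pencil k L i j) : Pencil k L j i := by
  obtain ⟨h1, f, h2, h3⟩ := h
  refine ⟨?_, f, h2, ?_⟩
  · rw [LinearIndependent.pair_iff] at h1 ⊢
    intro s t hst
    have := h1 t s ((add_comm _ _).trans hst)
    exact ⟨this.2, this.1⟩
  · intro a
    rw [Set.pair_comm]
    exact h3 a

/-- a linked arrangement gives a tree of forms -/
theorem tree_of_linked {n q k : ℕ} {L : Fin q → Fin (n + 1) → ℤ} (h : Linked k L) :
    ∃ (N : ℕ) (b : ℕ → Fin q) (p : ℕ → ℕ) (F : ℕ → Fin k → ℤ × ℤ) (f : ℕ → Fin k → Fin q)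
      (c : ℕ → Fin k → ℤ), Tr L N b p F f c := by
  classical
  obtain ⟨B, hB, hP⟩ := h
  -- a root
  obtain ⟨r, hr⟩ : B.Nonempty := by
    rw [Set.nonempty_iff_ne_empty]
    rintro rfl
    rw [Set.image_empty, Submodule.span_empty] at hB
    exact bot_ne_top hB
  obtain ⟨N, b, p, h1, h2⟩ := good_set (R := fun a b => a ∈ B ∧ b ∈ B ∧ Pencil k L a b) (r := r)
    (univ.filter fun i => i ∈ B) (by
      intro t ht
      exact hP r hr t (mem_filter.1 ht).2)
  have hrel : ∀ m : ℕ, ∃ (f : Fin k → Fin q) (c : Fin k → ℤ) (F : Fin k → ℤ × ℤ), m < N →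
      (∀ a, c a ≠ 0) ∧ (∀ a a', a ≠ a' → Pool.Agent.H583.SF.det F a a' ≠ 0) ∧
      ∀ a l, c a * L (f a) l = (F a).1 * L (b (m + 1)) l + (F a).2 * L (b (p m)) l := by
    intro m
    by_cases hm : m < N
    · have h3 : Pencil k L (b (m + 1)) (b (p m)) := pencil_symm (h1.2 m hm).2.2.2
      obtain ⟨f, c, F, h4⟩ := LinkedTriples.pencil_rel (n := n) (q := q) (k := k) (L := L) h3
      exact ⟨f, c, F, fun _ => h4⟩
    · exact ⟨fun _ => b 0, fun _ => 0, fun _ => (0, 0), fun h => absurd h hm⟩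
  choose f c F hfcF using hrel
  refine ⟨N, b, p, F, f, c, fun m hm => (h1.2 m hm).1, fun m hm => (hfcF m hm).1,
    fun m hm => (hfcF m hm).2.1, fun m hm => (hfcF m hm).2.2, ?_⟩
  intro z hz
  -- the functional of `z`
  obtain ⟨φ, hφ⟩ : ∃ φ : (Fin (n + 1) → ℚ) →ₗ[ℚ] ℚ, ∀ w, φ w = ∑ l, w l * (z l : ℚ) := by
    refine ⟨∑ l, (z l : ℚ) • LinearMap.proj l, ?_⟩
    intro w
    rw [LinearMap.sum_apply]
    apply Finset.sum_congr rfl
    intro l _
    rw [LinearMap.smul_apply, LinearMap.proj_apply, smul_eq_mul, mul_comm]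
  have h3 : Submodule.span ℚ (vec L '' B) ≤ LinearMap.ker φ := by
    rw [Submodule.span_le]
    rintro _ ⟨i, hi, rfl⟩
    obtain ⟨m, hm, rfl⟩ := h2 i (mem_filter.2 ⟨mem_univ i, hi⟩)
    rw [SetLike.mem_coe, LinearMap.mem_ker, hφ]
    have h4 := hz m hm
    unfold vl at h4
    have h5 : ((∑ l, L (b m) l * z l : ℤ) : ℚ) = 0 := by exact_mod_cast h4
    push_cast at h5
    exact h5
  rw [hB, top_le_iff, LinearMap.ker_eq_top] at h3
  funext l
  have h4 : φ (Pi.single l 1) = 0 := by rw [h3]; rfl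
  rw [hφ, Finset.sum_eq_single l] at h4
  · rw [Pi.single_eq_same, one_mul] at h4
    exact_mod_cast h4
  · intro j _ hj
    rw [Pi.single_eq_of_ne hj, zero_mul]
  · intro h
    exact absurd (mem_univ l) h

/-- cliques are linked -/
theorem linked_of_pencils {n q k : ℕ} {L : Fin q → Fin (n + 1) → ℤ}
    (h : LinkedTriples.Pencils k L) : Linked k L := by
  obtain ⟨B, hB, hP⟩ := h
  refine ⟨B, hB, ?_⟩
  intro i hi j hj
  by_cases hij : i = j
  · rw [hij]
  · exact Relation.ReflTransGen.single ⟨hi, hj, hP hi hj hij⟩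

/-- the index set of the arrangement whose complement is a power of the line without `k` points -/
abbrev Ix (k n : ℕ) : Type := Option (Fin n × Fin (k - 1))

/-- the form of an index -/
def form (k n : ℕ) : Ix k n → Fin (n + 1) → ℤ
  | none => Pi.single 0 1
  | some (i, c) => fun l => Pi.single (M := fun _ => ℤ) i.succ 1 l +
      (c.val : ℤ) * Pi.single (M := fun _ => ℤ) 0 1 l

/-- the arrangement -/
noncomputable def star (k n : ℕ) : Fin (Fintype.card (Ix k n)) → Fin (n + 1) → ℤ :=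
  fun j => form k n ((Fintype.equivFin (Ix k n)).symm j)

theorem star_apply (k n : ℕ) (t : Ix k n) : star k n (Fintype.equivFin (Ix k n) t) = form k n t := by
  unfold star
  rw [Equiv.symm_apply_apply]

/-- the arrangement is linked -/
theorem star_linked {k n : ℕ} (hk : 3 ≤ k) : Linked k (star k n) := by
  classical
  obtain ⟨e, he⟩ : ∃ e : Ix k n ≃ Fin (Fintype.card (Ix k n)), e = Fintype.equivFin _ := ⟨_, rfl⟩
  have hst : ∀ t, star k n (e t) = form k n t := by
    intro t
    rw [he]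
    exact star_apply k n t
  obtain ⟨g, hg⟩ : ∃ g : Fin (n + 1) → Fin (Fintype.card (Ix k n)),
      g = Fin.cons (e none) fun i => e (some (i, ⟨0, by omega⟩)) := ⟨_, rfl⟩
  have hg0 : g 0 = e none := by rw [hg]; rfl
  have hgs : ∀ i : Fin n, g i.succ = e (some (i, ⟨0, by omega⟩)) := by
    intro i
    rw [hg]
    rfl
  have hgL : ∀ i, star k n (g i) = Pi.single i 1 := by
    intro i
    refine Fin.cases ?_ (fun j => ?_) i
    · rw [hg0, hst]
      rfl
    · rw [hgs, hst]
      funext l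
      simp [form]
  have hpen : ∀ i : Fin n, Pencil k (star k n) (g 0) (g i.succ) := by
    intro i
    refine LinkedTriples.pencil_of (k := k) (L := star k n) (Fin.succ_ne_zero i).symm (hgL 0)
      (hgL i.succ) (fun a => if a.val < k - 1 then ((a.val : ℤ), 1) else (1, 0)) ?_
      (fun a => if h : a.val < k - 1 then e (some (i, ⟨a.val, h⟩)) else e none) ?_
    · intro a b hab
      have hne : (a.val : ℤ) ≠ b.val := fun h => hab (Fin.ext (by exact_mod_cast h))
      by_cases ha : a.val < k - 1 <;> by_cases hb : b.val < k - 1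
      · rw [if_pos ha, if_pos hb]
        simp only
        intro h
        apply hne
        linarith
      · rw [if_pos ha, if_neg hb]
        norm_num
      · rw [if_neg ha, if_pos hb]
        norm_num
      · exfalso
        apply hab
        apply Fin.ext
        have := a.isLt
        have := b.isLt
        omega
    · intro a l
      by_cases ha : a.val < k - 1
      · rw [dif_pos ha, if_pos ha, hst]
        simp only [form]
        ring
      · rw [dif_neg ha, if_neg ha, hst]
        simp only [form]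
        ring
  refine ⟨Set.range g, LinkedTriples.span_coord (L := star k n) hgL, ?_⟩
  have h0 : ∀ i, Relation.ReflTransGen
      (fun a b => a ∈ Set.range g ∧ b ∈ Set.range g ∧ Pencil k (star k n) a b) (g 0) (g i) := by
    intro i
    refine Fin.cases ?_ (fun j => ?_) i
    · exact Relation.ReflTransGen.refl
    · exact Relation.ReflTransGen.single ⟨⟨0, rfl⟩, ⟨j.succ, rfl⟩, hpen j⟩
  have h1 : ∀ i, Relation.ReflTransGen
      (fun a b => a ∈ Set.range g ∧ b ∈ Set.range g ∧ Pencil k (star k n) a b) (g i) (g 0) := by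
    intro i
    refine Fin.cases ?_ (fun j => ?_) i
    · exact Relation.ReflTransGen.refl
    · exact Relation.ReflTransGen.single ⟨⟨j.succ, rfl⟩, ⟨0, rfl⟩, pencil_symm (hpen j)⟩
  rintro _ ⟨i, rfl⟩ _ ⟨j, rfl⟩
  exact (h1 i).trans (h0 j)

/-- the point of two numbers -/
def pt (n : ℕ) (z : ℕ × ℕ) : Fin (n + 1) → ℤ := Fin.cons (z.2 : ℤ) fun _ => (z.1 : ℤ)

theorem val_form {k n : ℕ} (z : ℕ × ℕ) : ∀ t : Ix k n, ∑ l, form k n t l * pt n z l =
    match t with
    | none => (z.2 : ℤ)
    | some (_, c) => (z.1 : ℤ) + c.val * z.2 := by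
  intro t
  match t with
  | none =>
    simp only [form]
    rw [Finset.sum_eq_single 0]
    · rw [Pi.single_eq_same, one_mul]
      rfl
    · intro l _ hl
      rw [Pi.single_eq_of_ne hl, zero_mul]
    · intro h
      exact absurd (mem_univ _) h
  | some (i, c) =>
    simp only [form, add_mul, Finset.sum_add_distrib]
    rw [Finset.sum_eq_single i.succ, Finset.sum_eq_single 0]
    · rw [Pi.single_eq_same, Pi.single_eq_same, one_mul, mul_one]
      rfl
    · intro l _ hl
      rw [Pi.single_eq_of_ne hl, mul_zero, zero_mul]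
    · intro h
      exact absurd (mem_univ _) h
    · intro l _ hl
      rw [Pi.single_eq_of_ne hl, zero_mul]
    · intro h
      exact absurd (mem_univ _) h

/-- many points -/
theorem star_many {k n : ℕ} (hk : 3 ≤ k) (hn : 1 ≤ n) (S : Finset ℕ) {H : ℕ} {X : ℝ}
    (hH : ((k * H : ℕ) : ℝ) ^ k ≤ X) : ∀ z ∈ Pool.Agent.TH867.SB.Lb.rect H H,
    pt n z ∈ Points S (star k n) X := by
  classical
  intro z hz
  unfold Pool.Agent.TH867.SB.Lb.rect at hz
  rw [mem_filter, mem_product, mem_Ioc, mem_Ioc] at hz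
  obtain ⟨⟨⟨hu0, huH⟩, hv0, hvH⟩, hcop⟩ := hz
  obtain ⟨e, he⟩ : ∃ e : Ix k n ≃ Fin (Fintype.card (Ix k n)), e = Fintype.equivFin _ := ⟨_, rfl⟩
  have hval : ∀ t, val (star k n) (pt n z) (e t) = match t with
    | none => (z.2 : ℤ)
    | some (_, c) => (z.1 : ℤ) + c.val * z.2 := by
    intro t
    rw [← val_form z t]
    unfold val
    rw [he, star_apply]
  have hpos : ∀ j, 0 < val (star k n) (pt n z) j := by
    intro j
    obtain ⟨t, rfl⟩ := e.surjective j
    rw [hval]
    match t with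
    | none =>
      show (0 : ℤ) < (z.2 : ℤ)
      exact_mod_cast hv0
    | some (_, c) =>
      have h1 : (0 : ℤ) < z.1 := by exact_mod_cast hu0
      have h2 : (0 : ℤ) ≤ (c.val : ℤ) * z.2 := by positivity
      show (0 : ℤ) < (z.1 : ℤ) + c.val * z.2
      linarith
  refine ⟨⟨?_, fun j => (hpos j).ne'⟩, ?_⟩
  · -- coprime coordinates
    obtain ⟨d, hd⟩ : ∃ d, d = univ.gcd (pt n z) := ⟨_, rfl⟩
    rw [← hd]
    have h1 : d ∣ (z.2 : ℤ) := by
      rw [hd]
      exact Finset.gcd_dvd (mem_univ (0 : Fin (n + 1)))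
    have h2 : d ∣ (z.1 : ℤ) := by
      rw [hd]
      have := Finset.gcd_dvd (f := pt n z) (mem_univ (Fin.succ (⟨0, by omega⟩ : Fin n)))
      exact this
    have h3 : IsUnit d := (Nat.isCoprime_iff_coprime.2 hcop).isUnit_of_dvd' h2 h1
    have h4 : normalize d = d := by
      rw [hd]
      exact Finset.normalize_gcd
    rw [← h4]
    exact normalize_eq_one.2 h3
  · -- the primes
    obtain ⟨W, hW⟩ : ∃ W : ℕ, W = z.2 * ∏ c : Fin (k - 1), (z.1 + c.val * z.2) := ⟨_, rfl⟩
    have hW0 : W ≠ 0 := by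
      rw [hW]
      apply mul_ne_zero (by omega)
      exact Finset.prod_ne_zero_iff.2 fun c _ => by positivity
    have hsub : (∏ i, val (star k n) (pt n z) i).natAbs.primeFactors \ S ⊆ W.primeFactors := by
      intro p hp
      rw [mem_sdiff, Nat.mem_primeFactors] at hp
      obtain ⟨⟨hpp, hpd, -⟩, -⟩ := hp
      refine Nat.mem_primeFactors.2 ⟨hpp, ?_, hW0⟩
      have h1 : (p : ℤ) ∣ ∏ i, val (star k n) (pt n z) i := Int.natCast_dvd.2 hpd
      obtain ⟨j, -, hj⟩ := ((Nat.prime_iff_prime_int.1 hpp).dvd_finsetProd_iff _).1 h1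
      obtain ⟨t, rfl⟩ := e.surjective j
      rw [hval] at hj
      rw [hW]
      match t with
      | none =>
        have h2 : (p : ℤ) ∣ (z.2 : ℤ) := hj
        exact Dvd.dvd.mul_right (by exact_mod_cast h2) _
      | some (_, c) =>
        apply Dvd.dvd.mul_left
        have h3 : (p : ℤ) ∣ (z.1 : ℤ) + c.val * z.2 := hj
        have h2 : p ∣ z.1 + c.val * z.2 := by exact_mod_cast h3
        exact h2.trans (Finset.dvd_prod_of_mem (fun c : Fin (k - 1) => z.1 + c.val * z.2)
          (mem_univ c))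
    have h1 : ∏ p ∈ (∏ i, val (star k n) (pt n z) i).natAbs.primeFactors \ S, p ≤
        ∏ p ∈ W.primeFactors, p := by
      apply Finset.prod_le_prod_of_subset_of_one_le' hsub
      intro p hp _
      exact (Nat.prime_of_mem_primeFactors hp).one_lt.le
    have h2 : ∏ p ∈ W.primeFactors, p ≤ W := Nat.le_of_dvd (Nat.pos_of_ne_zero hW0)
      (Nat.prod_primeFactors_dvd W)
    have h3 : W ≤ (k * H) ^ k := by
      rw [hW]
      have h4 : ∀ c ∈ (univ : Finset (Fin (k - 1))), z.1 + c.val * z.2 ≤ k * H := by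
        intro c _
        have hc := c.isLt
        calc z.1 + c.val * z.2 ≤ H + (k - 1) * H :=
              Nat.add_le_add huH (Nat.mul_le_mul hc.le hvH)
          _ = (1 + (k - 1)) * H := by ring
          _ = k * H := by congr 1; omega
      have h5 := Finset.prod_le_pow_card univ (fun c : Fin (k - 1) => z.1 + c.val * z.2) (k * H) h4
      rw [card_univ, Fintype.card_fin] at h5
      have h6 : z.2 ≤ k * H := hvH.trans (Nat.le_mul_of_pos_left _ (by omega))
      calc z.2 * ∏ c : Fin (k - 1), (z.1 + c.val * z.2) ≤ (k * H) * (k * H) ^ (k - 1) :=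
            Nat.mul_le_mul h6 h5
        _ = (k * H) ^ (k - 1 + 1) := by rw [pow_succ, mul_comm]
        _ = (k * H) ^ k := by congr 1; omega
    refine le_trans ?_ hH
    exact_mod_cast (h1.trans h2).trans h3

/-- the upper bound -/
theorem upper {k n q : ℕ} {L : Fin q → Fin (n + 1) → ℤ} (hk : 3 ≤ k) (hL : Linked k L)
    (S : Finset ℕ) (ε : ℝ) (hε : 0 < ε) : ∃ C : ℝ, 0 < C ∧ ∀ X : ℝ, 1 ≤ X →
      (Points S L X).Finite ∧ ((Points S L X).ncard : ℝ) ≤ C * X ^ (2 / (k : ℝ) + ε) := by
  obtain ⟨N, b, p, F, f, c, H⟩ := tree_of_linked hL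
  obtain ⟨C, hC, h⟩ := pointsA hk H S ε hε
  refine ⟨C, hC, ?_⟩
  intro X hX
  apply LinkedTriples.of_bound
  intro Q hQ
  apply h X hX Q
  intro x hx
  exact ⟨(hQ x hx).1.1, (hQ x hx).1.2, (hQ x hx).2⟩

/-- the lower bound -/
theorem lower {k n : ℕ} (hk : 3 ≤ k) (hn : 1 ≤ n) (S : Finset ℕ) {X : ℝ}
    (hX : (2 * (k : ℝ)) ^ k ≤ X) : 1 / (16 * (k : ℝ) ^ 2) * X ^ (2 / (k : ℝ)) ≤
      ((Points S (star k n) X).ncard : ℝ) := by
  classical
  have hk0 : (0 : ℝ) < k := by
    have : 0 < k := by omega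
    exact_mod_cast this
  have hk1 : (1 : ℝ) ≤ k := by
    have : 1 ≤ k := by omega
    exact_mod_cast this
  have hX1 : 1 ≤ X := le_trans (one_le_pow₀ (by linarith)) hX
  have hX0 : 0 < X := by linarith
  obtain ⟨Y, hY⟩ : ∃ Y : ℝ, Y = X ^ (1 / (k : ℝ)) := ⟨_, rfl⟩
  have hYk : Y ^ k = X := by
    rw [hY, ← Real.rpow_natCast, ← Real.rpow_mul hX0.le, one_div, inv_mul_cancel₀ hk0.ne',
      Real.rpow_one]
  have hY0 : 0 ≤ Y := by rw [hY]; positivity
  have hY2 : 2 * (k : ℝ) ≤ Y := by
    apply le_of_pow_le_pow_left₀ (by omega : k ≠ 0) hY0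
    rw [hYk]
    exact hX
  obtain ⟨H, hH⟩ : ∃ H : ℕ, H = ⌊Y / k⌋₊ := ⟨_, rfl⟩
  have hH1 : (H : ℝ) ≤ Y / k := by
    rw [hH]
    exact Nat.floor_le (by positivity)
  have hH2 : Y / (2 * k) ≤ H := by
    have h1 : Y / k < H + 1 := by rw [hH]; exact Nat.lt_floor_add_one _
    have h2 : 1 ≤ Y / (2 * k) := by
      rw [le_div_iff₀ (by positivity)]
      linarith
    have h3 : Y / k = Y / (2 * k) + Y / (2 * k) := by
      field_simp
      ring
    linarith
  have hkH : ((k * H : ℕ) : ℝ) ^ k ≤ X := by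
    rw [← hYk]
    apply pow_le_pow_left₀ (Nat.cast_nonneg _)
    push_cast
    calc (k : ℝ) * H ≤ k * (Y / k) := mul_le_mul_of_nonneg_left hH1 hk0.le
      _ = Y := by field_simp
  have hmem := star_many (n := n) hk hn S hkH
  have hfin : (Points S (star k n) X).Finite := by
    obtain ⟨C, -, h⟩ := upper hk (star_linked (n := n) hk) S 1 one_pos
    exact (h X hX1).1
  have hcard : ((Pool.Agent.TH867.SB.Lb.rect H H).image (pt n)).card =
      (Pool.Agent.TH867.SB.Lb.rect H H).card := by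
    apply card_image_of_injective
    intro z w hzw
    have h1 := congrFun hzw 0
    have h2 := congrFun hzw (Fin.succ (⟨0, by omega⟩ : Fin n))
    have h3 : (z.2 : ℤ) = w.2 := h1
    have h4 : (z.1 : ℤ) = w.1 := h2
    exact Prod.ext (by exact_mod_cast h4) (by exact_mod_cast h3)
  have h1 : ((Pool.Agent.TH867.SB.Lb.rect H H).image (pt n)).card ≤
      (Points S (star k n) X).ncard := by
    rw [← Set.ncard_coe_finset]
    apply Set.ncard_le_ncard _ hfin
    intro x hx
    rw [coe_image] at hx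
    obtain ⟨z, hz, rfl⟩ := hx
    exact hmem z hz
  rw [hcard] at h1
  have h2 := Pool.Agent.TH867.SB.Lb.rect_count H H
  have h3 : X ^ (2 / (k : ℝ)) = Y ^ 2 := by
    rw [hY, ← Real.rpow_natCast, ← Real.rpow_mul hX0.le]
    congr 1
    push_cast
    ring
  have h4 : (Y / (2 * k)) * (Y / (2 * k)) ≤ (H : ℝ) * H := by
    apply mul_le_mul hH2 hH2 (by positivity) (Nat.cast_nonneg _)
  calc 1 / (16 * (k : ℝ) ^ 2) * X ^ (2 / (k : ℝ)) = (Y / (2 * k)) * (Y / (2 * k)) / 4 := by
        rw [h3]; field_simp; ring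
    _ ≤ (H : ℝ) * H / 4 := by linarith
    _ ≤ ((Pool.Agent.TH867.SB.Lb.rect H H).card : ℝ) := h2
    _ ≤ _ := by exact_mod_cast h1

open Pool.Agent.H583.MO in
/-- integral points in terms of the product of the primes -/
theorem integral_eq {n q : ℕ} (S : Finset ℕ) (L : Fin q → Fin (n + 1) → ℤ) (m : ℕ) :
    IntegralPoints S L m = Ym S L m := by
  ext x
  have h1 : ∀ {x : Fin (n + 1) → ℤ}, (∀ i, val L x i ≠ 0) →
      ((∀ p : ℕ, p.Prime → (p : ℤ) ∣ ∏ i, val L x i → p ∈ S ∨ p ∣ m) ↔ rd S L x ∣ m) := by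
    intro x hx
    have hne : (∏ i, val L x i).natAbs ≠ 0 :=
      Int.natAbs_ne_zero.2 (Finset.prod_ne_zero_iff.2 fun i _ => hx i)
    have h2 : rd S L x ∣ m ↔ ∀ p ∈ (∏ i, val L x i).natAbs.primeFactors \ S, p ∣ m :=
      prod_dvd_iff (fun p hp => Nat.prime_of_mem_primeFactors (mem_sdiff.1 hp).1) m
    rw [h2]
    constructor
    · intro h p hp
      rw [mem_sdiff, Nat.mem_primeFactors] at hp
      exact (h p hp.1.1 (Int.natCast_dvd.2 hp.1.2.1)).resolve_left hp.2
    · intro h p hp hd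
      by_cases hS : p ∈ S
      · exact Or.inl hS
      · exact Or.inr (h p (mem_sdiff.2 ⟨Nat.mem_primeFactors.2 ⟨hp, Int.natCast_dvd.1 hd, hne⟩, hS⟩))
  constructor
  · rintro ⟨⟨h2, h3⟩, h4⟩
    exact ⟨h2, h3, (h1 h3).1 h4⟩
  · rintro ⟨h2, h3, h4⟩
    exact ⟨⟨h2, h3⟩, (h1 h3).2 h4⟩

open Pool.Agent.H583.MO in
/-- the upper bound for tuples -/
theorem upper_tuples {k n q : ℕ} {L : Fin q → Fin (n + 1) → ℤ} (hk : 3 ≤ k) (hL : Linked k L)
    (S : Finset ℕ) (j : ℕ) (ε : ℝ) (hε : 0 < ε) : ∃ C : ℝ, 0 < C ∧ ∀ X : ℝ, 1 ≤ X →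
      (Tuples S L j X).Finite ∧ ((Tuples S L j X).ncard : ℝ) ≤ C * X ^ (2 / (k : ℝ) + ε) := by
  obtain ⟨N, b, p, F, f, c, H⟩ := tree_of_linked hL
  obtain ⟨C, hC, h⟩ := tuples hk H S j ε hε
  refine ⟨C, hC, ?_⟩
  intro X hX
  apply LinkedTriples.of_bound
  intro Q hQ
  apply h X hX Q
  intro x hx
  obtain ⟨m, h1, h2, h3⟩ := hQ x hx
  rw [integral_eq] at h3
  refine ⟨fun i => ⟨(h3 i).1, (h3 i).2.1⟩, ?_⟩
  have h4 : rdj S L x ∣ m := (rdj_dvd S L x m).2 fun i => (h3 i).2.2
  have h5 := Nat.le_of_dvd (by omega) h4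
  exact le_trans (by exact_mod_cast h5) h2

/-- the integral points are finite in number -/
theorem finite_integral {k n q : ℕ} {L : Fin q → Fin (n + 1) → ℤ} (hk : 3 ≤ k) (hL : Linked k L)
    (S : Finset ℕ) {m : ℕ} (hm : 1 ≤ m) : (IntegralPoints S L m).Finite := by
  obtain ⟨C, -, h⟩ := upper hk hL S 1 one_pos
  refine (h m (by exact_mod_cast hm)).1.subset ?_
  intro x hx
  rw [integral_eq] at hx
  refine ⟨⟨hx.1, hx.2.1⟩, ?_⟩
  have := Nat.le_of_dvd (by omega) hx.2.2
  exact_mod_cast this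

/-- Vojta's inequality for points of bounded height -/
theorem proximity_le {n q : ℕ} (S : Finset ℕ) {L : Fin q → Fin (n + 1) → ℤ} (m : ℕ)
    {x : Fin (n + 1) → ℤ} (hx : IsPoint L x) : proximity S L m x ≤ q * height x := by
  unfold proximity
  rw [Finset.sum_comm, ← Finset.sum_add_distrib]
  have h1 : ∀ i ∈ (univ : Finset (Fin q)), (height x - Real.log |(val L x i : ℝ)|) +
      ∑ p ∈ S.filter Nat.Prime ∪ m.primeFactors, (padicValInt p (val L x i) : ℝ) * Real.log p ≤
      height x := by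
    intro i _
    have := Pool.Agent.H583.MO.padic_sum_le (hx.2 i) (S.filter Nat.Prime ∪ m.primeFactors) (by
      intro p hp
      rw [mem_union, mem_filter] at hp
      rcases hp with hp | hp
      · exact hp.2
      · exact Nat.prime_of_mem_primeFactors hp)
    linarith
  refine (Finset.sum_le_sum h1).trans (le_of_eq ?_)
  rw [Finset.sum_const, card_univ, Fintype.card_fin, nsmul_eq_mul]

/-- Vojta's inequality for most sets of primes -/
theorem vojta_most {k n q : ℕ} {L : Fin q → Fin (n + 1) → ℤ} (hk : 3 ≤ k) (hL : Linked k L)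
    (S : Finset ℕ) (ε : ℝ) (hε : 0 < ε) : ∃ D : ℝ, ∀ R : ℝ, 1 ≤ R → ∃ C : ℝ, ∀ X : ℕ,
      ((({m : ℕ | 1 ≤ m ∧ m ≤ X ∧ ∃ x ∈ IntegralPoints S L m, R < radical S L x ∨ C < height x ∨
        C < proximity S L m x - (n + 1) * height x} : Set ℕ).ncard : ℕ) : ℝ) ≤
          D * R ^ (2 / (k : ℝ) - 1 + ε) * X := by
  obtain ⟨N, b, p, F, f, c, H⟩ := tree_of_linked hL
  obtain ⟨D, -, hD⟩ := Pool.Agent.H583.MO.uniform hk H S ε hε
  refine ⟨D, ?_⟩
  intro R hR
  obtain ⟨B, hB1, hB⟩ := hD R hR
  have hB1r : (1 : ℝ) ≤ B := by exact_mod_cast hB1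
  have hlB : 0 ≤ Real.log B := Real.log_nonneg hB1r
  refine ⟨(q + 1) * Real.log B, ?_⟩
  intro X
  refine le_trans ?_ (hB X)
  have hsub : ({m : ℕ | 1 ≤ m ∧ m ≤ X ∧ ∃ x ∈ IntegralPoints S L m, R < radical S L x ∨
      (q + 1) * Real.log B < height x ∨
        (q + 1) * Real.log B < proximity S L m x - (n + 1) * height x} : Set ℕ) ⊆
      {m | 1 ≤ m ∧ m ≤ X ∧ ∃ x ∈ Pool.Agent.H583.MO.Ym S L m,
        R < (Pool.Agent.H583.AR.rd S L x : ℝ) ∨ B < hx x} := by
    rintro m ⟨h1, h2, x, h3, h4⟩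
    refine ⟨h1, h2, x, by rwa [integral_eq] at h3, ?_⟩
    rcases h4 with h4 | h4
    · exact Or.inl h4
    right
    by_contra hcon
    rw [not_lt] at hcon
    have hh := hx_pos h3.1.1
    have hh' : (0 : ℝ) < (hx x : ℕ) := by exact_mod_cast hh
    have h5 : height x ≤ Real.log B := Real.log_le_log hh' (by exact_mod_cast hcon)
    have h6 : 0 ≤ height x := Real.log_nonneg (by exact_mod_cast hh)
    have h7 := proximity_le S m h3.1
    have hq : (0 : ℝ) ≤ q := Nat.cast_nonneg q
    have h8 : (q : ℝ) * height x ≤ q * Real.log B := mul_le_mul_of_nonneg_left h5 hq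
    have h9 : 0 ≤ (q : ℝ) * Real.log B := mul_nonneg hq hlB
    have h10 : 0 ≤ ((n : ℝ) + 1) * height x := by positivity
    rcases h4 with h4 | h4 <;> nlinarith
  have hfin : ({m | 1 ≤ m ∧ m ≤ X ∧ ∃ x ∈ Pool.Agent.H583.MO.Ym S L m,
      R < (Pool.Agent.H583.AR.rd S L x : ℝ) ∨ B < hx x} : Set ℕ).Finite :=
    (Set.finite_Icc 1 X).subset fun m hm => ⟨hm.1, hm.2.1⟩
  exact_mod_cast Set.ncard_le_ncard hsub hfin

/-- the lower bound for tuples -/
theorem lower_tuples {k n : ℕ} (hk : 3 ≤ k) (hn : 1 ≤ n) (S : Finset ℕ) {j : ℕ} (hj : 1 ≤ j) {X : ℝ}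
    (hX : (2 * (k : ℝ)) ^ k ≤ X) : 1 / (16 * (k : ℝ) ^ 2) * X ^ (2 / (k : ℝ)) ≤
      ((Tuples S (star k n) j X).ncard : ℝ) := by
  refine (lower hk hn S hX).trans ?_
  have hk1 : (1 : ℝ) ≤ k := by
    have : 1 ≤ k := by omega
    exact_mod_cast this
  have hX1 : 1 ≤ X := le_trans (one_le_pow₀ (by linarith)) hX
  obtain ⟨C, -, h⟩ := upper_tuples hk (star_linked (n := n) hk) S j 1 one_pos
  have h1 : ((fun x : Fin (n + 1) → ℤ => fun _ : Fin j => x) '' Points S (star k n) X) ⊆
      Tuples S (star k n) j X := by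
    rintro _ ⟨x, ⟨hx, hr⟩, rfl⟩
    have hpos := rd_pos S (star k n) x
    refine ⟨rd S (star k n) x, hpos, hr, ?_⟩
    intro i
    rw [integral_eq]
    exact ⟨hx.1, hx.2, dvd_rfl⟩
  have h2 := Set.ncard_le_ncard h1 (h X hX1).1
  have hinj : Function.Injective (fun x : Fin (n + 1) → ℤ => fun _ : Fin j => x) :=
    fun x y hxy => congrFun hxy ⟨0, by omega⟩
  rw [Set.ncard_image_of_injective _ hinj] at h2
  exact_mod_cast h2

/-- **Theorem.** Let `k ≥ 3`, let `L` be a linked arrangement of order `k` in `P ^ n` over `ℚ` and `S` a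
finite set of primes; for `m ≥ 1` let `Y(m)` be the set of the points off the arrangement which are
integral outside of `T_m = S ∪ {p : p ∣ m}`. (1) For all `j` and `ε > 0` the `j`-tuples of points which
are in `Y(m)` for one `m ≤ X`, of whatever height, are finite in number, at most `C X ^ (2 / k + ε)`.
(2) All moments exist: for all `j` there is `M` such that the sum of the `|Y(m)| ^ j` for `m ≤ X` is
`M X + O(X ^ (2 / k + ε))`. (3) For all `ε > 0` there is `D` and for all `R ≥ 1` there is `C` such that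
for all but at most `D R ^ (2 / k - 1 + ε) X` of the `m ≤ X` the product of the primes outside `S` at
which `x` meets the arrangement is at most `R` for all points `x` of `Y(m)`, and they all satisfy
`h(x) ≤ C` and Vojta's inequality `m_{T_m,D}(x) + h_K(x) ≤ C`. (4) The exponent of (1) is the best possible for all `k ≥ 3`, `n ≥ 1` and
`j ≥ 1`. (5) The arrangements of `M_{0, n + 3}` and of type `B` are linked of order `3` and `4`. -/
theorem result :
    (∀ (k n q : ℕ) (L : Fin q → Fin (n + 1) → ℤ), 3 ≤ k → Linked k L → ∀ S : Finset ℕ,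
      (∀ (j : ℕ) (ε : ℝ), 0 < ε → ∃ C : ℝ, 0 < C ∧ ∀ X : ℝ, 1 ≤ X →
        (Tuples S L j X).Finite ∧ ((Tuples S L j X).ncard : ℝ) ≤ C * X ^ (2 / (k : ℝ) + ε)) ∧
      ((∀ m : ℕ, 1 ≤ m → (IntegralPoints S L m).Finite) ∧
        ∀ j : ℕ, ∃ M : ℝ, ∀ ε : ℝ, 0 < ε → ∃ C : ℝ, ∀ X : ℕ, 1 ≤ X →
          |∑ m ∈ Icc 1 X, ((IntegralPoints S L m).ncard : ℝ) ^ j - M * X| ≤
            C * (X : ℝ) ^ (2 / (k : ℝ) + ε)) ∧
      (∀ ε : ℝ, 0 < ε → ∃ D : ℝ, ∀ R : ℝ, 1 ≤ R → ∃ C : ℝ, ∀ X : ℕ,
        ((({m : ℕ | 1 ≤ m ∧ m ≤ X ∧ ∃ x ∈ IntegralPoints S L m, R < radical S L x ∨ C < height x ∨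
          C < proximity S L m x - (n + 1) * height x} : Set ℕ).ncard : ℕ) : ℝ) ≤
            D * R ^ (2 / (k : ℝ) - 1 + ε) * X)) ∧
    (∀ k n : ℕ, 3 ≤ k → 1 ≤ n → ∃ (q : ℕ) (L : Fin q → Fin (n + 1) → ℤ), Linked k L ∧
      ∃ c : ℝ, 0 < c ∧ ∃ X₀ : ℝ, ∀ (S : Finset ℕ) (j : ℕ) (X : ℝ), 1 ≤ j → X₀ ≤ X →
        c * X ^ (2 / (k : ℝ)) ≤ ((Tuples S L j X).ncard : ℝ)) ∧
    (∀ (n q : ℕ) (L : Fin q → Fin (n + 1) → ℤ), ContainsBraid L → Linked 3 L) ∧
    (∀ (n q : ℕ) (L : Fin q → Fin (n + 1) → ℤ), ContainsTypeB L → Linked 4 L) := by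
  refine ⟨?_, ?_, ?_, ?_⟩
  · intro k n q L hk hL S
    refine ⟨fun j ε hε => upper_tuples hk hL S j ε hε, ⟨fun m hm => finite_integral hk hL S hm, ?_⟩,
      fun ε hε => vojta_most hk hL S ε hε⟩
    intro j
    obtain ⟨N, b, p, F, f, c, H⟩ := tree_of_linked hL
    obtain ⟨M, -, h⟩ := Pool.Agent.H583.MO.moments hk H S j
    refine ⟨M, ?_⟩
    intro ε hε
    obtain ⟨C, -, h1⟩ := h ε hε
    refine ⟨C, ?_⟩
    intro X hX
    have h2 := h1 X hX
    simp only [← integral_eq] at h2
    exact h2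
  · intro k n hk hn
    refine ⟨_, star k n, star_linked hk, 1 / (16 * (k : ℝ) ^ 2), ?_, (2 * (k : ℝ)) ^ k, ?_⟩
    · have hk0 : (0 : ℝ) < k := by
        have : 0 < k := by omega
        exact_mod_cast this
      positivity
    · intro S j X hj hX
      exact lower_tuples hk hn S hj hX
  · intro n q L h
    exact linked_of_pencils (LinkedTriples.pencils_of_braid h)
  · intro n q L h
    exact linked_of_pencils (LinkedTriples.pencils_of_typeB h)

end Pool.Agent.Results.MP_17a322_nt.LinkedArrangements
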