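import Pool.Agent.H912.AE.Nf3

/-!
# Points on the pull-backs of a projective variety over most number fields of given degree

Let `w` be even and `K = ℚ(ζ_w)` (so `K = ℚ` if `w = 2`).  For a closed set `X ⊂ ℙ^n` over `K`,
given by an arbitrary set `S` of forms, let `X_m = {x ∈ ℙ^n : (x_0^m : ... : x_n^m) ∈ X}`.  We
prove that for `100%` of all exponents `m` and for `100%` of all number fields `L = K(θ)`, where `θ`
is a root of a monic irreducible polynomial of degree `D` with rational integral coefficients, the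
variety `X_m` has a point over `L` only if it has a point whose coordinates are zero or `w`-th
roots of unity.
-/

set_option autoImplicit false

open Filter Topology

namespace Pool.Agent.Results.MP_17a322_nt.MostNumberFields

/-- `x` is a vector of homogeneous coordinates of a point of `X_m` over the field `L`, where
`X ⊂ ℙ^n` is the set of common zeros of the forms in `S`, with coefficients in `K`, where
`X_m = {x : (x_0^m : ... : x_n^m) ∈ X}`, and where `L` is a `K`-algebra by means of `φ`. -/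
def IsPt {K L : Type} [Field K] [Field L] (φ : K →+* L) {n : ℕ}
    (S : Set (MvPolynomial (Fin (n + 1)) K)) (m : ℕ) (x : Fin (n + 1) → L) : Prop :=
  x ≠ 0 ∧ ∀ F ∈ S, MvPolynomial.eval₂ φ (fun i => x i ^ m) F = 0

/-- Every coordinate of `η` is zero or a `w`-th root of unity. -/
def IsTrivial (w : ℕ) {K : Type} [Field K] {n : ℕ} (η : Fin (n + 1) → K) : Prop :=
  ∀ i, η i = 0 ∨ η i ^ w = 1

/-- The polynomial `t^D + a_{D-1} t^{D-1} + ... + a_0` over the field `K`. -/
noncomputable def poly (K : Type) [Field K] {D : ℕ} (a : Fin D → ℤ) : Polynomial K :=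
  Polynomial.X ^ D + ∑ i, Polynomial.C ((a i : ℤ) : K) * Polynomial.X ^ (i : ℕ)

/-- The polynomial `poly K a` is the minimal polynomial over `K` of an element `θ` such that `X_m`
has a point over `K(θ)`; but `X_m` does not have a point whose coordinates are zero or `w`-th roots
of unity. -/
def Exceptional {K : Type} [Field K] {n : ℕ} (S : Set (MvPolynomial (Fin (n + 1)) K)) (w m : ℕ)
    {D : ℕ} (a : Fin D → ℤ) : Prop :=
  (∃ (L : Type) (_ : Field L) (_ : Algebra K L) (θ : L), IsIntegral K θ ∧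
    minpoly K θ = poly K a ∧ IntermediateField.adjoin K {θ} = ⊤ ∧
      ∃ x : Fin (n + 1) → L, IsPt (algebraMap K L) S m x) ∧
  ¬ ∃ η : Fin (n + 1) → K, IsTrivial w η ∧ IsPt (RingHom.id K) S m η

open Classical in
/-- The number of the integral vectors `a` in the box `∏ [b_i, b_i + H_i)` which are exceptional
for `m`. -/
noncomputable def count {K : Type} [Field K] {n : ℕ} (S : Set (MvPolynomial (Fin (n + 1)) K))
    (w m : ℕ) {D : ℕ} (b : Fin D → ℤ) (H : Fin D → ℕ) : ℕ :=
  ((Fintype.piFinset fun i => Finset.Ico (b i) (b i + H i)).filter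
    (fun a => Exceptional S w m a)).card

/-- The set `A` of positive integers has natural density `δ`. -/
def HasDensity (A : Set ℕ) (δ : ℝ) : Prop :=
  Tendsto (fun N : ℕ => ((A ∩ Set.Icc 1 N).ncard : ℝ) / N) atTop (𝓝 δ)

/-- **Main theorem.** Let `w` be even, `K = ℚ(ζ_w)`, let `X ⊂ ℙ^n` be the set of zeros of an
arbitrary set `S` of forms with coefficients in `K`, let `X_m` be the pull-back of `X` under
`x ↦ x^m`, and let `D ≥ 1`.  For every `ε > 0` there are `H₀` and `N₀` such that for all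
`M ≥ N₀` the following holds for all `m < M` but at most `ε M`: in every box
`∏ [b_i, b_i + H_i)` with all `H_i ≥ H₀`, the polynomials
`f = t^D + a_{D-1} t^{D-1} + ... + a_0` for which `X_m` has a point over the field
`K[t] / (f)` (with `f` irreducible over `K`), although it has no point whose coordinates are zero
or `w`-th roots of unity, make up at most the proportion `ε`.  In particular, for every `ε` this is
true in all sufficiently large boxes, for all `m` in a set of natural density one. -/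
theorem result {w : ℕ} [NeZero w] (hw : Even w) {K : Type} [Field K] [CharZero K]
    [IsCyclotomicExtension {w} ℚ K] {n : ℕ} (S : Set (MvPolynomial (Fin (n + 1)) K))
    (hS : ∀ F ∈ S, ∃ d, F.IsHomogeneous d) {D : ℕ} (hD : 0 < D) :
    (∀ ε : ℝ, 0 < ε → ∃ H₀ N₀ : ℕ, ∀ M ≥ N₀,
      (({m | m < M ∧ ¬ ∀ (b : Fin D → ℤ) (H : Fin D → ℕ), (∀ i, H₀ ≤ H i) →
        (count S w m b H : ℝ) ≤ ε * ∏ i, (H i : ℝ)}.ncard : ℝ)) ≤ ε * M) ∧
    (∀ ε : ℝ, 0 < ε → HasDensity {m | ∃ H₀ : ℕ, ∀ (b : Fin D → ℤ) (H : Fin D → ℕ),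
      (∀ i, H₀ ≤ H i) → (count S w m b H : ℝ) ≤ ε * ∏ i, (H i : ℝ)} 1) := by
  classical
  have hloc : ∀ (m : ℕ) (a : Fin D → ℤ), 1 ≤ m → Exceptional S w m a →
      ∀ q, Pool.Agent.H912.AE.WitK w S m q →
        ¬ Pool.Agent.H912.AE.SR (fun j => ((a j : ℤ) : ZMod q)) := by
    rintro m a - ⟨⟨L, _, _, θ, hθ, hmin, htop, x, hx⟩, hno⟩ q ⟨hq, ⟨φ⟩, hφ⟩ hSR
    obtain ⟨z, hz⟩ := Pool.Agent.H912.AE.hensel_SR a hSR
    have h1 : (minpoly K θ).eval₂ φ z = 0 := by
      rw [hmin]
      exact (Pool.Agent.H912.AE.pol_cast φ a z).trans hz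
    obtain ⟨ψ, hψ⟩ := Pool.Agent.H912.AE.exists_lift φ hθ htop h1
    refine hno ?_
    have h2 : (fun i => ψ (x i)) ≠ 0 := by
      intro h
      apply hx.1
      funext i
      have := congrFun h i
      simp only [Pi.zero_apply, map_eq_zero] at this
      exact this
    obtain ⟨η, h3, h4, h5⟩ := hφ φ (fun i => ψ (x i)) h2 (fun F hF => by
      have h6 := congrArg ψ (hx.2 F hF)
      rw [map_zero, MvPolynomial.hom_eval₂, hψ] at h6
      have h7 : (⇑ψ ∘ fun i => x i ^ m) = fun i => ψ (x i) ^ m := by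
        funext i
        simp
      rw [← h7]
      exact h6)
    refine ⟨η, h3, ?_, h5⟩
    intro h6
    obtain ⟨i, hi⟩ := Finite.exists_max (fun i => ‖ψ (x i)‖)
    exact (h4 i).2 hi (congrFun h6 i)
  -- the witness primes
  have hwit : ∀ (D : ℕ) (ε : ℝ), 0 < ε → ∃ D' N₀ : ℕ, ∀ M : ℕ, N₀ ≤ M →
      (((Finset.range M).filter (fun m => ¬ ∃ q, D < q ∧ q ≤ D' ∧
        (1 ≤ m ∧ Pool.Agent.H912.AE.WitK w S m q))).card : ℝ) ≤ ε * M := by
    intro D ε hε
    obtain ⟨D', N₀, h⟩ := Pool.Agent.H912.AE.witK1F hw.two_dvd (Finset.range 1) (fun _ => S)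
      (fun _ _ => hS) D (half_pos hε)
    obtain ⟨N₁, hN₁⟩ := exists_nat_ge (2 / ε)
    refine ⟨D', N₀ + N₁, fun M hM => ?_⟩
    have h1 := h M (by omega)
    have hsub : (Finset.range M).filter (fun m => ¬ ∃ q, D < q ∧ q ≤ D' ∧
        (1 ≤ m ∧ Pool.Agent.H912.AE.WitK w S m q)) ⊆ {0} ∪ (Finset.range M).filter (fun m =>
          ¬ ∃ q, D < q ∧ q ≤ D' ∧ ∀ e ∈ Finset.range 1, Pool.Agent.H912.AE.WitK w S m q) := by
      intro m hm
      rw [Finset.mem_filter] at hm
      by_cases h0 : m = 0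
      · exact Finset.mem_union_left _ (Finset.mem_singleton.2 h0)
      · refine Finset.mem_union_right _ (Finset.mem_filter.2 ⟨hm.1, ?_⟩)
        rintro ⟨q, h2, h3, h4⟩
        exact hm.2 ⟨q, h2, h3, by omega, h4 0 (by simp)⟩
    have h2 := (Finset.card_le_card hsub).trans (Finset.card_union_le _ _)
    rw [Finset.card_singleton] at h2
    have h3 : (((Finset.range M).filter (fun m => ¬ ∃ q, D < q ∧ q ≤ D' ∧
        (1 ≤ m ∧ Pool.Agent.H912.AE.WitK w S m q))).card : ℝ) ≤ 1 +
        (((Finset.range M).filter (fun m => ¬ ∃ q, D < q ∧ q ≤ D' ∧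
          ∀ e ∈ Finset.range 1, Pool.Agent.H912.AE.WitK w S m q)).card : ℝ) := by
      exact_mod_cast h2
    have hMr : (N₁ : ℝ) ≤ M := by
      have : N₁ ≤ M := by omega
      exact_mod_cast this
    have h4 : 1 ≤ ε / 2 * M := by
      have h5 : 2 / ε ≤ M := hN₁.trans hMr
      rw [div_le_iff₀ hε] at h5
      linarith
    linarith
  have main : ∀ ε : ℝ, 0 < ε → ∃ H₀ N₀ : ℕ, ∀ M ≥ N₀,
      ((((Finset.range M).filter (fun m => ¬ ∀ (b : Fin D → ℤ) (H : Fin D → ℕ),
        (∀ i, H₀ ≤ H i) → (count S w m b H : ℝ) ≤ ε * ∏ i, (H i : ℝ))).card : ℝ)) ≤ ε * M := by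
    intro ε hε
    obtain ⟨N₁, hN₁⟩ := exists_nat_ge (2 / ε)
    obtain ⟨H₀, N₀, h⟩ := Pool.Agent.H912.AE.nfields hD
      (fun m q => 1 ≤ m ∧ Pool.Agent.H912.AE.WitK w S m q)
      (fun m q hq => by
        obtain ⟨_, h1, -⟩ := hq
        exact h1.out) hwit (half_pos hε)
    refine ⟨H₀, N₀ + N₁, fun M hM => ?_⟩
    have h1 : (Finset.range M).filter (fun m => ¬ ∀ (b : Fin D → ℤ) (H : Fin D → ℕ),
        (∀ i, H₀ ≤ H i) → (count S w m b H : ℝ) ≤ ε * ∏ i, (H i : ℝ)) ⊆
        {0} ∪ (Finset.range M).filter (fun m => ¬ ∀ (b : Fin D → ℤ) (H : Fin D → ℕ),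
          (∀ i, H₀ ≤ H i) → (((Fintype.piFinset fun i => Finset.Ico (b i) (b i + H i)).filter
          (fun a => ∀ q, (1 ≤ m ∧ Pool.Agent.H912.AE.WitK w S m q) →
            ¬ Pool.Agent.H912.AE.SR (fun j => ((a j : ℤ) : ZMod q)))).card : ℝ) ≤
            ε / 2 * ∏ i, (H i : ℝ)) := by
      intro m hm
      rw [Finset.mem_filter] at hm
      by_cases h0 : m = 0
      · exact Finset.mem_union_left _ (Finset.mem_singleton.2 h0)
      refine Finset.mem_union_right _ (Finset.mem_filter.2 ⟨hm.1, fun h2 => hm.2 ?_⟩)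
      intro b H hH
      have h3 := h2 b H hH
      have h4 : (count S w m b H : ℝ) ≤
          (((Fintype.piFinset fun i => Finset.Ico (b i) (b i + H i)).filter
          (fun a => ∀ q, (1 ≤ m ∧ Pool.Agent.H912.AE.WitK w S m q) →
            ¬ Pool.Agent.H912.AE.SR (fun j => ((a j : ℤ) : ZMod q)))).card : ℝ) := by
        have h5 : count S w m b H ≤
            ((Fintype.piFinset fun i => Finset.Ico (b i) (b i + H i)).filter
            (fun a => ∀ q, (1 ≤ m ∧ Pool.Agent.H912.AE.WitK w S m q) →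
              ¬ Pool.Agent.H912.AE.SR (fun j => ((a j : ℤ) : ZMod q)))).card := by
          refine Finset.card_le_card fun a ha => ?_
          rw [Finset.mem_filter] at ha ⊢
          exact ⟨ha.1, fun q hq => hloc m a (by omega) ha.2 q hq.2⟩
        exact_mod_cast h5
      have h5 : (0 : ℝ) ≤ ∏ i, (H i : ℝ) := Finset.prod_nonneg fun i _ => by positivity
      nlinarith
    have h2 := (Finset.card_le_card h1).trans (Finset.card_union_le _ _)
    rw [Finset.card_singleton] at h2
    have h3 := h M (by omega)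
    have h4 : ((((Finset.range M).filter (fun m => ¬ ∀ (b : Fin D → ℤ) (H : Fin D → ℕ),
        (∀ i, H₀ ≤ H i) → (count S w m b H : ℝ) ≤ ε * ∏ i, (H i : ℝ))).card : ℝ)) ≤ 1 +
        ε / 2 * M := by
      refine le_trans ?_ (add_le_add_right h3 1)
      exact_mod_cast h2
    have hMr : (N₁ : ℝ) ≤ M := by
      have : N₁ ≤ M := by omega
      exact_mod_cast this
    have h5 : 1 ≤ ε / 2 * M := by
      have h5 : 2 / ε ≤ M := hN₁.trans hMr
      rw [div_le_iff₀ hε] at h5
      linarith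
    linarith
  refine ⟨fun ε hε => ?_, fun ε hε => ?_⟩
  · obtain ⟨H₀, N₀, h⟩ := main ε hε
    refine ⟨H₀, N₀, fun M hM => le_trans (le_of_eq ?_) (h M hM)⟩
    rw [← Set.ncard_coe_finset]
    congr 2
    ext m
    simp only [Set.mem_ofPred_eq, Finset.coe_filter, Finset.mem_range]
  · refine Pool.Agent.H912.AE.full_of fun ε' hε' => ?_
    obtain ⟨H₀, N₀, h⟩ := main (min ε ε') (lt_min hε hε')
    refine ⟨N₀, fun M hM => ?_⟩
    have h1 : (Finset.range M).filter (fun m => m ∉ {m | ∃ H₀ : ℕ, ∀ (b : Fin D → ℤ)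
        (H : Fin D → ℕ), (∀ i, H₀ ≤ H i) →
          (count S w m b H : ℝ) ≤ ε * ∏ i, (H i : ℝ)}) ⊆
        (Finset.range M).filter (fun m => ¬ ∀ (b : Fin D → ℤ) (H : Fin D → ℕ),
        (∀ i, H₀ ≤ H i) → (count S w m b H : ℝ) ≤ min ε ε' * ∏ i, (H i : ℝ)) := by
      intro m hm
      rw [Finset.mem_filter] at hm ⊢
      refine ⟨hm.1, fun h2 => hm.2 ⟨H₀, fun b H hH => (h2 b H hH).trans ?_⟩⟩
      exact mul_le_mul_of_nonneg_right (min_le_left _ _)
        (Finset.prod_nonneg fun i _ => by positivity)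
    have h2 : (((Finset.range M).filter (fun m => m ∉ {m | ∃ H₀ : ℕ,
        ∀ (b : Fin D → ℤ) (H : Fin D → ℕ), (∀ i, H₀ ≤ H i) →
          (count S w m b H : ℝ) ≤ ε * ∏ i, (H i : ℝ)})).card : ℝ) ≤ min ε ε' * M := by
      refine le_trans ?_ (h M hM)
      exact_mod_cast Finset.card_le_card h1
    exact h2.trans (mul_le_mul_of_nonneg_right (min_le_right _ _) (by positivity))

end Pool.Agent.Results.MP_17a322_nt.MostNumberFields
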