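import Pool.Agent.H426.Sub.Main

set_option autoImplicit false

/-!
# The sharp Schmidt-Nochka theorem for closed subschemes

`X = {G = 0}` is an irreducible projective variety of dimension `n` over a number field `K`, and
`W i = X ∩ {w i = 0}`, `i < q`, are closed subschemes in `N`-subgeneral position: the intersection
of every `k ≤ N + 1` of them has dimension at most `N - k` (dimension `-1` means that it is empty;
a subscheme may be repeated). Then outside a proper closed subset `Z` of `X`
`∑ i, γ i * m_{S, W i}(x) ≤ (2 N δ - n + 1 + ε) h(x) + C` for all points `x` of degree `δ ≤ r`, so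
`2 N - n + 1` for the rational points. Here `γ i` is at most the supremum of the quotients `m / d`
such that the forms of degree `d` in the `m`-th power of the ideal sheaf of `W i` have no common
zeros on `X` outside `W i`. This supremum is at least the Seshadri constant of `W i` with respect
to `O(1)`. `Z` does not depend on `S`.

Method. The position of the `W i` passes to the base loci of these linear systems, and, by a count
of the minimal primes of their intersections, to general members `H i` of degree `d i`: no `N + 1`
of them have a common point on `X`. The local height of `H i` is at least `m i` times that of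
`W i`. The inequality for the hypersurfaces `H i` is proved with weights of bases and Noetherian
induction (see our results for `MP_651af7_nt`).
-/

namespace Pool.Agent.Results.MP_17a322_nt.NochkaForSubschemes

open NumberField IsDedekindDomain

/-- The point with homogeneous coordinates `x` is a common zero of the forms `G k`. -/
def On {K E : Type} [Field K] [Field E] [Algebra K E] {m s : ℕ}
    (G : Fin m → MvPolynomial (Fin s) K) (x : Fin s → E) : Prop :=
  ∀ k, MvPolynomial.aeval x (G k) = 0

/-- `{G = 0}` is an irreducible projective variety over `K`, defined by a prime ideal generated by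
the forms `G k`, of dimension `n`: its homogeneous coordinate ring has transcendence degree
`n + 1`. -/
def IsVariety {K : Type} [Field K] {m s : ℕ} (G : Fin m → MvPolynomial (Fin s) K) (n : ℕ) : Prop :=
  (∀ k, ∃ g, (G k).IsHomogeneous g) ∧ (Ideal.span (Set.range G)).IsPrime ∧
    Algebra.trdeg K (MvPolynomial (Fin s) K ⧸ Ideal.span (Set.range G)) = n + 1

/-- The closed subschemes `W i = {w i = 0}` of `X = {G = 0}` are in `N`-subgeneral position: for
every set `I` of at most `N + 1` indices the intersection of the `W i`, `i ∈ I`, has dimension at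
most `N - |I|`. That is, the coordinate ring of each irreducible closed subset of it has
transcendence degree at most `N + 1 - |I|`. -/
def InSubgeneralPosition {K : Type} [Field K] {m s q : ℕ} (G : Fin m → MvPolynomial (Fin s) K)
    {p : Fin q → ℕ} (w : ∀ i, Fin (p i) → MvPolynomial (Fin s) K) (N : ℕ) : Prop :=
  ∀ (I : Finset (Fin q)) (P : Ideal (MvPolynomial (Fin s) K)), I.card ≤ N + 1 → P.IsPrime →
    (∀ k, G k ∈ P) → (∀ i ∈ I, ∀ j, w i j ∈ P) →
    Algebra.trdeg K (MvPolynomial (Fin s) K ⧸ P) + I.card ≤ N + 1

/-- There are forms `P j` of degree `d` in the `m`-th power of the ideal sheaf of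
`W = X ∩ {w = 0}` whose common zeros on `X = {G = 0}` lie on `W`. For the chart where the `k`-th
coordinate is not zero the first condition is that a power of this coordinate times `P j` belongs
to the `m`-th power of the ideal of `W`. -/
def Separates {K : Type} [Field K] {M s p : ℕ} (G : Fin M → MvPolynomial (Fin s) K)
    (w : Fin p → MvPolynomial (Fin s) K) (m d : ℕ) : Prop :=
  ∃ (t a : ℕ) (P : Fin t → MvPolynomial (Fin s) K), (∀ j, (P j).IsHomogeneous d ∧
    ∀ k, MvPolynomial.X k ^ a * P j ∈ Ideal.span (Set.range w) ^ m ⊔ Ideal.span (Set.range G)) ∧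
    ∀ (E : Type) [Field E] [Algebra K E] (x : Fin s → E), x ≠ 0 → On G x → On P x → On w x

/-- `γ` is at most the supremum of the quotients `m / d` with `Separates G w m d`. -/
def AtMostSeshadri {K : Type} [Field K] {M s p : ℕ} (G : Fin M → MvPolynomial (Fin s) K)
    (w : Fin p → MvPolynomial (Fin s) K) (γ : ℝ) : Prop :=
  ∀ η : ℝ, 0 < η → ∃ m d : ℕ, 1 ≤ d ∧ γ - η ≤ (m : ℝ) / d ∧ Separates G w m d

/-- The places of a number field: the archimedean places and the primes. -/
abbrev Place (L : Type) [Field L] [NumberField L] : Type :=
  InfinitePlace L ⊕ HeightOneSpectrum (𝓞 L)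

/-- The place is archimedean or lies over a prime in `S`. -/
def Above {K L : Type} [Field K] [NumberField K] [Field L] [NumberField L] [Algebra K L]
    (S : Finset (HeightOneSpectrum (𝓞 K))) : Place L → Prop
  | Sum.inl _ => True
  | Sum.inr w => ∃ v ∈ S, w.asIdeal.LiesOver v.asIdeal

/-- The absolute value of a place. At a prime it is the normalised one, with the value
`(N v) ^ (-ord_v x)` at `x ≠ 0`. -/
noncomputable def absv {L : Type} [Field L] [NumberField L] : Place L → L → ℝ
  | Sum.inl w => fun x => w x
  | Sum.inr v => fun x => FinitePlace.mk v x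

/-- The exponent of the absolute value of a place in the product formula: `1` at real places and at
primes, `2` at complex places. -/
noncomputable def weight {L : Type} [Field L] [NumberField L] : Place L → ℝ
  | Sum.inl w => w.mult
  | Sum.inr _ => 1

/-- The local height of the closed subscheme `{w = 0}`, `w j` of degree `e j`, at the point with
homogeneous coordinates `x`: the minimum of the local heights of the forms `w j`. -/
noncomputable def weil {K L : Type} [Field K] [Field L] [NumberField L] [Algebra K L] {s p : ℕ}
    (v : Place L) (e : Fin p → ℕ) (w : Fin p → MvPolynomial (Fin s) K) (x : Fin s → L) : ℝ :=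
  -Real.log (⨆ j, absv v (MvPolynomial.aeval x (w j)) / (⨆ k, absv v (x k)) ^ e j)

/-- The proximity function of the closed subscheme `{w = 0}` in absolute normalisation, for the
finite set `T` of places of `L`. -/
noncomputable def proximity {K L : Type} [Field K] [Field L] [NumberField L] [Algebra K L]
    {s p : ℕ} (T : Finset (Place L)) (e : Fin p → ℕ) (w : Fin p → MvPolynomial (Fin s) K)
    (x : Fin s → L) : ℝ :=
  (∑ v ∈ T, weight v * weil v e w x) / Module.finrank ℚ L

/-- The absolute logarithmic height. -/
noncomputable def height {L : Type} [Field L] [NumberField L] {s : ℕ} (x : Fin s → L) : ℝ :=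
  Height.logHeight x / Module.finrank ℚ L

/-- Let `X = {G = 0}` be an irreducible projective variety of dimension `n` over a number field `K`
and let the closed subschemes `W i = {w i = 0}`, `i < q`, of `X` be in `N`-subgeneral position. Let
`γ i` be at most the supremum of the quotients `m / d` such that the forms of degree `d` in the
`m`-th power of the ideal sheaf of `W i` have no common zeros on `X` outside `W i`. For every `r`
and every `ε > 0` there is a form `Z` which does not vanish identically on `X` such that for every
finite set `S` of primes of `K` there is `C` such that for every number field `L` of degree at most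
`r` over `K`, every point `x` of `X` with coordinates in `L` outside `Z = 0` and all `W i`, and
every finite set `T` of places of `L` which are archimedean or lie over `S`,
`∑ i, γ i * m_{T, W i}(x) ≤ (2 N [L : K] - n + 1 + ε) h(x) + C`. In particular the constant is
`2 N - n + 1 + ε` for the points of `X` with coordinates in `K`. -/
theorem result (K : Type) [Field K] [NumberField K] (m s n q N r : ℕ)
    (G : Fin m → MvPolynomial (Fin s) K) (hX : IsVariety G n)
    (p : Fin q → ℕ) (e : ∀ i, Fin (p i) → ℕ) (w : ∀ i, Fin (p i) → MvPolynomial (Fin s) K)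
    (hw : ∀ i j, (w i j).IsHomogeneous (e i j)) (hN : InSubgeneralPosition G w N)
    (γ : Fin q → ℝ) (hγ : ∀ i, AtMostSeshadri G (w i) (γ i)) (ε : ℝ) (hε : 0 < ε) :
    ∃ (t : ℕ) (Z : MvPolynomial (Fin s) K), Z.IsHomogeneous t ∧ Z ∉ Ideal.span (Set.range G) ∧
      ∀ S : Finset (HeightOneSpectrum (𝓞 K)), ∃ C : ℝ,
        ∀ (L : Type) [Field L] [NumberField L] [Algebra K L], Module.finrank K L ≤ r →
          ∀ x : Fin s → L, x ≠ 0 → On G x → MvPolynomial.aeval x Z ≠ 0 →
            (∀ i, ¬ On (w i) x) →
            ∀ T : Finset (Place L), (∀ v ∈ T, Above S v) →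
              ∑ i, γ i * proximity T (e i) (w i) x ≤
                (2 * N * Module.finrank K L - n + 1 + ε) * height x + C := by
  classical
  have hweil : ∀ (L : Type) [Field L] [NumberField L] [Algebra K L] (v : Place L) {p : ℕ}
      (e : Fin p → ℕ) (w : Fin p → MvPolynomial (Fin s) K)
      (x : Fin s → L), weil v e w x =
      Pool.Agent.H426.Sub.slam (Pool.Agent.W180.OP.av v) e w x := by
    intro L _ _ _ v p e w x
    cases v <;> rfl
  have hwt : ∀ (L : Type) [Field L] [NumberField L] (v : Place L),
      weight v = Pool.Agent.W180.OP.wt v := by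
    intro L _ _ v
    cases v <;> rfl
  obtain ⟨hG, hp, hdim⟩ := hX
  choose g hG using hG
  have hpos : Pool.Agent.H426.Sub.Pos (Ideal.span (Set.range G))
      (fun i => Ideal.span (Set.range (w i))) N := by
    intro I P hI hP hGP hwP
    have h1 := hN I P hI hP (fun k => hGP (Ideal.subset_span ⟨k, rfl⟩))
      (fun i hi j => hwP i hi (Ideal.subset_span ⟨j, rfl⟩))
    exact_mod_cast h1
  obtain ⟨Z, t, hZt, hZG, hZ⟩ := Pool.Agent.H426.Sub.main (r := r) (μ := n) G g hG hp
    (by rw [hdim]; exact Cardinal.natCast_add_one_le_iff.1 le_rfl) p e w hw hpos γ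
    (fun i η hη => by
      obtain ⟨m, d, hd, hmd, t, a, P, hP, hPb⟩ := hγ i η hη
      exact ⟨m, d, hd, hmd, t, a, P, hP, fun E _ _ x hx h1 h2 => hPb E x hx h1 h2⟩) hε
  refine ⟨t, Z, hZt, hZG, fun S => ?_⟩
  set S' : Finset (Pool.Agent.W180.OP.Pl K) := Finset.univ.image Sum.inl ∪ S.image Sum.inr with hS'
  obtain ⟨C, hC0, hC⟩ := hZ S'
  refine ⟨C, ?_⟩
  intro L _ _ _ hrL x hx hGx hZx hwx T hT
  have hN1 : (1 : ℝ) ≤ Module.finrank ℚ L := by
    exact_mod_cast (Module.finrank_pos : 0 < Module.finrank ℚ L)
  have hN0 : (0 : ℝ) < Module.finrank ℚ L := by linarith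
  have h1 := hC L hrL x hx hGx (fun i => by
    have := hwx i
    unfold On at this
    push Not at this
    exact this) hZx T (by
    intro v hv
    have h2 := hT v hv
    cases v with
    | inl w =>
      refine ⟨Sum.inl (w.comap (algebraMap K L)), ?_, rfl⟩
      exact Finset.mem_union_left _ (Finset.mem_image_of_mem _ (Finset.mem_univ _))
    | inr w =>
      obtain ⟨v, hv, hvw⟩ := h2
      exact ⟨Sum.inr v, Finset.mem_union_right _ (Finset.mem_image_of_mem _ hv), hvw⟩)
  have e1 : ∑ i, γ i * proximity T (e i) (w i) x = (∑ v ∈ T, Pool.Agent.W180.OP.wt v *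
      ∑ i, γ i * Pool.Agent.H426.Sub.slam (Pool.Agent.W180.OP.av v) (e i) (w i) x) /
      Module.finrank ℚ L := by
    unfold proximity
    simp_rw [hweil, hwt, Finset.mul_sum, Finset.sum_div]
    rw [Finset.sum_comm]
    simp_rw [Finset.mul_sum]
    refine Finset.sum_congr rfl fun v _ => Finset.sum_congr rfl fun i _ => ?_
    ring
  rw [e1, div_le_iff₀ hN0]
  have e2 : ((2 * (N : ℝ) * Module.finrank K L - n + 1 + ε) * height x + C) *
      Module.finrank ℚ L = (2 * (N * Module.finrank K L) - n + 1 + ε) * Height.logHeight x +
        C * Module.finrank ℚ L := by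
    unfold height
    field_simp
  rw [e2]
  have h2 : C ≤ C * Module.finrank ℚ L := le_mul_of_one_le_right hC0 hN1
  linarith

end Pool.Agent.Results.MP_17a322_nt.NochkaForSubschemes
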